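import Pool.Agent.H964R2.Core.Main

/-!
# Graded linear actions: eigencoordinates and fixed subspaces
-/

set_option autoImplicit false
set_option linter.unusedSectionVars false

namespace Pool.Agent.R837.NA

open MvPolynomial Pool.Agent.H964R2.Core

variable {n : ℕ}

/-- linear forms: additivity in the point -/
theorem eval_add_of_linear {p : MvPolynomial (Fin n) ℂ}
    (hp : p ∈ Submodule.span ℂ (Set.range (X : Fin n → MvPolynomial (Fin n) ℂ)))
    (u v : Fin n → ℂ) : eval (u + v) p = eval u p + eval v p := by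
  refine Submodule.span_induction
    (p := fun p _ => eval (u + v) p = eval u p + eval v p) ?_ ?_ ?_ ?_ hp
  · rintro _ ⟨i, rfl⟩
    simp
  · simp
  · intro x y _ _ hx hy
    rw [map_add, map_add, map_add, hx, hy]
    ring
  · intro c x _ hx
    rw [smul_eval, smul_eval, smul_eval, hx]
    ring

theorem eval_smul_of_linear {p : MvPolynomial (Fin n) ℂ}
    (hp : p ∈ Submodule.span ℂ (Set.range (X : Fin n → MvPolynomial (Fin n) ℂ)))
    (c : ℂ) (v : Fin n → ℂ) : eval (c • v) p = c * eval v p := by
  refine Submodule.span_induction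
    (p := fun p _ => eval (c • v) p = c * eval v p) ?_ ?_ ?_ ?_ hp
  · rintro _ ⟨i, rfl⟩
    simp
  · simp
  · intro x y _ _ hx hy
    rw [map_add, map_add, hx, hy]
    ring
  · intro c x _ hx
    rw [smul_eval, smul_eval, hx]
    ring

/-- the fixed subspace of `(T, s)` -/
def fix (w : Fin n → ℕ) (T : MvPolynomial (Fin n) ℂ ≃ₐ[ℂ] MvPolynomial (Fin n) ℂ)
    (hT : ∀ i, T (X i) ∈ Submodule.span ℂ (Set.range (X : Fin n → MvPolynomial (Fin n) ℂ)))
    (s : ℂ) : Submodule ℂ (Fin n → ℂ) where
  carrier := {v | ∀ i, eval v (T (X i)) = s ^ w i * v i}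
  add_mem' := by
    intro u v hu hv i
    rw [eval_add_of_linear (hT i), hu i, hv i, Pi.add_apply]
    ring
  zero_mem' := by
    intro i
    have h1 := eval_smul_of_linear (hT i) 0 0
    rw [zero_smul, zero_mul] at h1
    rw [h1]
    simp
  smul_mem' := by
    intro c v hv i
    rw [eval_smul_of_linear (hT i), hv i, Pi.smul_apply, smul_eq_mul]
    ring

theorem span_le_range (w : Fin n → ℕ) (d : ℕ) :
    Submodule.span ℂ ((X : Fin n → MvPolynomial (Fin n) ℂ) '' {k | w k = d}) ≤
      Submodule.span ℂ (Set.range (X : Fin n → MvPolynomial (Fin n) ℂ)) :=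
  Submodule.span_mono (Set.image_subset_range _ _)

/-- an eigenbasis of the linear forms which is compatible with the weights -/
structure Eig (w : Fin n → ℕ) (T : MvPolynomial (Fin n) ℂ ≃ₐ[ℂ] MvPolynomial (Fin n) ℂ) where
  K : Type
  ft : Fintype K
  b : K → MvPolynomial (Fin n) ℂ
  m : K → ℕ
  lam : K → ℂ
  li : LinearIndependent ℂ b
  eig : ∀ k, T (b k) = lam k • b k
  norm : ∀ k, ‖lam k‖ = 1
  deg : ∀ k, ∃ i, w i = m k
  span : ∀ d, Submodule.span ℂ (b '' {k | m k = d}) =
    Submodule.span ℂ ((X : Fin n → MvPolynomial (Fin n) ℂ) '' {i | w i = d})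

attribute [instance] Eig.ft

theorem exists_eig (w : Fin n → ℕ) (T : MvPolynomial (Fin n) ℂ ≃ₐ[ℂ] MvPolynomial (Fin n) ℂ)
    {N : ℕ} (hN : 0 < N) (hTN : T ^ N = 1)
    (hT : ∀ i, T (X i) ∈
      Submodule.span ℂ ((X : Fin n → MvPolynomial (Fin n) ℂ) '' {k | w k = w i})) :
    Nonempty (Eig w T) := by
  obtain ⟨K, hK, b, m, lam, h1, h2, h3, h4, h5⟩ := exists_adapted (w := w) T hN hTN
    (X : Fin n → MvPolynomial (Fin n) ℂ) w (fun i => isWeightedHomogeneous_X ℂ w i) hT
  exact ⟨⟨K, hK, b, m, lam, h1, h2, h3, h4, h5⟩⟩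

namespace Eig

variable {w : Fin n → ℕ} {T : MvPolynomial (Fin n) ℂ ≃ₐ[ℂ] MvPolynomial (Fin n) ℂ} (B : Eig w T)

theorem mem_span (k : B.K) : B.b k ∈
    Submodule.span ℂ ((X : Fin n → MvPolynomial (Fin n) ℂ) '' {i | w i = B.m k}) := by
  rw [← B.span]
  exact Submodule.subset_span ⟨k, rfl, rfl⟩

theorem mem_range (k : B.K) : B.b k ∈
    Submodule.span ℂ (Set.range (X : Fin n → MvPolynomial (Fin n) ℂ)) :=
  span_le_range w _ (B.mem_span k)

theorem hom (k : B.K) : IsWeightedHomogeneous w (B.b k) (B.m k) := by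
  have h1 : Submodule.span ℂ ((X : Fin n → MvPolynomial (Fin n) ℂ) '' {i | w i = B.m k}) ≤
      weightedHomogeneousSubmodule ℂ w (B.m k) := by
    rw [Submodule.span_le]
    rintro _ ⟨i, hi, rfl⟩
    rw [SetLike.mem_coe, mem_weightedHomogeneousSubmodule]
    have := isWeightedHomogeneous_X ℂ w i
    rwa [show w i = B.m k from hi] at this
  exact (mem_weightedHomogeneousSubmodule _ _ _ _).1 (h1 (B.mem_span k))

theorem X_mem (i : Fin n) : (X i : MvPolynomial (Fin n) ℂ) ∈
    Submodule.span ℂ (Set.range B.b) := by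
  have h1 : (X i : MvPolynomial (Fin n) ℂ) ∈ Submodule.span ℂ (B.b '' {k | B.m k = w i}) := by
    rw [B.span]
    exact Submodule.subset_span ⟨i, rfl, rfl⟩
  exact Submodule.span_mono (Set.image_subset_range _ _) h1

theorem card_K : Fintype.card B.K = n := by
  have h1 : Submodule.span ℂ (Set.range B.b) =
      Submodule.span ℂ (Set.range (X : Fin n → MvPolynomial (Fin n) ℂ)) := by
    apply le_antisymm
    · rw [Submodule.span_le]
      rintro _ ⟨k, rfl⟩
      exact B.mem_range k
    · rw [Submodule.span_le]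
      rintro _ ⟨i, rfl⟩
      exact B.X_mem i
  have h2 := finrank_span_eq_card B.li
  have h3 := finrank_span_eq_card (linearIndependent_X (σ := Fin n) ℂ)
  rw [h1, h3, Fintype.card_fin] at h2
  exact h2.symm

/-- points with the same eigencoordinates are equal -/
theorem ext_point {u v : Fin n → ℂ} (h : ∀ k, eval u (B.b k) = eval v (B.b k)) : u = v := by
  funext i
  have h1 : eval u (X i : MvPolynomial (Fin n) ℂ) = eval v (X i) := by
    refine Submodule.span_induction (p := fun p _ => eval u p = eval v p) ?_ ?_ ?_ ?_ (B.X_mem i)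
    · rintro _ ⟨k, rfl⟩
      exact h k
    · simp
    · intro x y _ _ hx hy
      rw [map_add, map_add, hx, hy]
    · intro c x _ hx
      rw [smul_eval, smul_eval, hx]
  simpa using h1

/-- the eigencoordinates -/
noncomputable def coord : (Fin n → ℂ) →ₗ[ℂ] (B.K → ℂ) where
  toFun v k := eval v (B.b k)
  map_add' u v := by
    funext k
    exact eval_add_of_linear (B.mem_range k) u v
  map_smul' c v := by
    funext k
    exact eval_smul_of_linear (B.mem_range k) c v

noncomputable def coordEquiv : (Fin n → ℂ) ≃ₗ[ℂ] (B.K → ℂ) :=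
  LinearEquiv.ofInjectiveOfFinrankEq B.coord
    (fun _ _ h => B.ext_point fun k => congrFun h k)
    (by rw [Module.finrank_fintype_fun_eq_card, Module.finrank_fintype_fun_eq_card,
      Fintype.card_fin, B.card_K])

/-- a point is fixed if and only if its other eigencoordinates are zero -/
theorem mem_fix_iff (hT : ∀ i, T (X i) ∈
      Submodule.span ℂ (Set.range (X : Fin n → MvPolynomial (Fin n) ℂ))) (s : ℂ) (v : Fin n → ℂ) :
    v ∈ fix w T hT s ↔ ∀ k, B.lam k ≠ s ^ B.m k → eval v (B.b k) = 0 := by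
  have key : ∀ k, eval (fun i => eval v (T (X i))) (B.b k) = B.lam k * eval v (B.b k) := by
    intro k
    rw [← eval_equiv, B.eig k, smul_eval]
  constructor
  · intro hv k hk
    have h1 : (fun i => eval v (T (X i))) = fun i => s ^ w i * v i := funext hv
    have h2 := key k
    rw [h1, eval_scale (B.hom k)] at h2
    have h3 : (B.lam k - s ^ B.m k) * eval v (B.b k) = 0 := by
      rw [sub_mul, ← h2, sub_self]
    rcases mul_eq_zero.1 h3 with h4 | h4
    · exact absurd (sub_eq_zero.1 h4) hk
    · exact h4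
  · intro h
    have h1 : (fun i => eval v (T (X i))) = fun i => s ^ w i * v i := by
      apply B.ext_point
      intro k
      rw [key k, eval_scale (B.hom k)]
      by_cases hk : B.lam k = s ^ B.m k
      · rw [hk]
      · rw [h k hk, mul_zero, mul_zero]
    exact fun i => congrFun h1 i

open Classical in
theorem finrank_fix (hT : ∀ i, T (X i) ∈
      Submodule.span ℂ (Set.range (X : Fin n → MvPolynomial (Fin n) ℂ))) (s : ℂ) :
    Module.finrank ℂ (fix w T hT s) = (Finset.univ.filter fun k => B.lam k = s ^ B.m k).card := by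
  set A : Finset B.K := Finset.univ.filter fun k => B.lam k = s ^ B.m k with hA
  have hmem : ∀ k, k ∈ A ↔ B.lam k = s ^ B.m k := by
    intro k
    simp [hA]
  let f : fix w T hT s →ₗ[ℂ] ({k // k ∈ A} → ℂ) :=
    (LinearMap.funLeft ℂ ℂ (Subtype.val : {k // k ∈ A} → B.K)).comp
      (B.coord.comp (fix w T hT s).subtype)
  have hf : Function.Injective f := by
    rintro ⟨u, hu⟩ ⟨v, hv⟩ h
    apply Subtype.ext
    apply B.ext_point
    intro k
    by_cases hk : k ∈ A
    · exact congrFun h ⟨k, hk⟩
    · rw [hmem] at hk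
      have h1 := (B.mem_fix_iff hT s u).1 hu k hk
      have h2 := (B.mem_fix_iff hT s v).1 hv k hk
      show eval u (B.b k) = eval v (B.b k)
      rw [h1, h2]
  have hf2 : Function.Surjective f := by
    intro c
    let c' : B.K → ℂ := fun k => if h : k ∈ A then c ⟨k, h⟩ else 0
    have h1 : ∀ k, eval (B.coordEquiv.symm c') (B.b k) = c' k := by
      intro k
      have h2 : B.coordEquiv (B.coordEquiv.symm c') = c' := B.coordEquiv.apply_symm_apply c'
      exact congrFun h2 k
    refine ⟨⟨B.coordEquiv.symm c', ?_⟩, ?_⟩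
    · rw [B.mem_fix_iff]
      intro k hk
      rw [h1]
      exact dif_neg fun h => hk ((hmem k).1 h)
    · funext k
      show eval (B.coordEquiv.symm c') (B.b k.1) = c k
      rw [h1]
      exact dif_pos k.2
  have e := LinearEquiv.ofBijective f ⟨hf, hf2⟩
  rw [e.finrank_eq, Module.finrank_fintype_fun_eq_card, Fintype.card_coe]

end Eig

end Pool.Agent.R837.NA
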