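import Mathlib

/-!
# Averages of traces over a finite group
-/

set_option autoImplicit false
set_option linter.unusedSectionVars false

namespace Pool.Agent.R837.NA

open Finset Kronecker

variable {G : Type} [Group G] [Fintype G] {κ : Type} [Fintype κ] [DecidableEq κ]

theorem trace_idem (Z : Matrix κ κ ℂ) (hZ : Z * Z = Z) : Z.trace = (Z.rank : ℂ) := by
  have h1 : IsIdempotentElem (Matrix.toLin' Z) := by
    show (Matrix.toLin' Z).comp (Matrix.toLin' Z) = Matrix.toLin' Z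
    rw [← Matrix.toLin'_mul, hZ]
  have h2 := (LinearMap.IsIdempotentElem.isProj_range _ h1).trace
  rw [Matrix.trace_toLin'_eq] at h2
  rw [h2]
  rfl

theorem avg_idem (Q : G →* Matrix κ κ ℂ) (E : Matrix κ κ ℂ) (hE : E * E = E)
    (hEQ : ∀ g, E * Q g = Q g * E) :
    ∃ Z : Matrix κ κ ℂ, Z * E = Z ∧ (∀ g, Z * Q g = Z) ∧
      ∑ g, (E * Q g).trace = (Fintype.card G : ℂ) * (Z.rank : ℂ) := by
  have hG : (Fintype.card G : ℂ) ≠ 0 := by exact_mod_cast Fintype.card_ne_zero
  set S : Matrix κ κ ℂ := (Fintype.card G : ℂ)⁻¹ • ∑ g, Q g with hS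
  have h1 : ∀ g, Q g * S = S := by
    intro g
    rw [hS, Matrix.mul_smul, Finset.mul_sum]
    congr 1
    have : ∀ h, Q g * Q h = Q (g * h) := fun h => (map_mul Q g h).symm
    rw [Finset.sum_congr rfl fun h _ => this h]
    exact Equiv.sum_comp (Equiv.mulLeft g) (fun h => Q h)
  have h2 : ∀ g, S * Q g = S := by
    intro g
    rw [hS, Matrix.smul_mul, Finset.sum_mul]
    congr 1
    have : ∀ h, Q h * Q g = Q (h * g) := fun h => (map_mul Q h g).symm
    rw [Finset.sum_congr rfl fun h _ => this h]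
    exact Equiv.sum_comp (Equiv.mulRight g) (fun h => Q h)
  have h3 : S * S = S := by
    conv_lhs => rw [hS]
    rw [Matrix.smul_mul, Finset.sum_mul, Finset.sum_congr rfl fun g _ => h1 g, Finset.sum_const,
      Finset.card_univ, ← Nat.cast_smul_eq_nsmul ℂ, smul_smul, inv_mul_cancel₀ hG, one_smul]
  have h4 : E * S = S * E := by
    rw [hS, Matrix.mul_smul, Matrix.smul_mul, Finset.mul_sum, Finset.sum_mul]
    congr 1
    exact Finset.sum_congr rfl fun g _ => hEQ g
  have h5 : (E * S) * (E * S) = E * S := by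
    calc (E * S) * (E * S) = E * (S * E) * S := by simp only [Matrix.mul_assoc]
      _ = (E * E) * (S * S) := by rw [← h4]; simp only [Matrix.mul_assoc]
      _ = E * S := by rw [hE, h3]
  refine ⟨E * S, ?_, ?_, ?_⟩
  · rw [Matrix.mul_assoc, ← h4, ← Matrix.mul_assoc, hE]
  · intro g
    rw [Matrix.mul_assoc, h2]
  · rw [← trace_idem _ h5, hS, Matrix.mul_smul, Matrix.trace_smul, smul_eq_mul, ← mul_assoc,
      mul_inv_cancel₀ hG, one_mul, Finset.mul_sum, Matrix.trace_sum]

theorem avg_nonneg (Q : G →* Matrix κ κ ℂ) (E : Matrix κ κ ℂ) (hE : E * E = E)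
    (hEQ : ∀ g, E * Q g = Q g * E) : 0 ≤ ∑ g, ((E * Q g).trace).re := by
  obtain ⟨Z, -, -, h⟩ := avg_idem Q E hE hEQ
  rw [← Complex.re_sum, h]
  have : ((Fintype.card G : ℂ) * (Z.rank : ℂ)) = (((Fintype.card G * Z.rank : ℕ) : ℝ) : ℂ) := by
    push_cast; rfl
  rw [this, Complex.ofReal_re]
  exact Nat.cast_nonneg _

variable {n : ℕ}

/-- the action on matrices by `Y ↦ A g Y B g⁻¹` -/
def kr (A B : G →* Matrix (Fin n) (Fin n) ℂ) :
    G →* Matrix (Fin n × Fin n) (Fin n × Fin n) ℂ where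
  toFun g := A g ⊗ₖ (B g⁻¹).transpose
  map_one' := by
    rw [inv_one, map_one, map_one, Matrix.transpose_one, Matrix.one_kronecker_one]
  map_mul' g h := by
    rw [mul_inv_rev, map_mul, map_mul, Matrix.transpose_mul, Matrix.mul_kronecker_mul]

theorem kr_apply (A B : G →* Matrix (Fin n) (Fin n) ℂ) (g : G) (x y : Fin n × Fin n) :
    kr A B g x y = A g x.1 y.1 * B g⁻¹ y.2 x.2 := by
  show (A g ⊗ₖ (B g⁻¹).transpose) x y = _
  rw [Matrix.kroneckerMap_apply, Matrix.transpose_apply]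

open Classical in
/-- the projection to the entries of degree one -/
noncomputable def pr (e f : Fin n → ℤ) : Matrix (Fin n × Fin n) (Fin n × Fin n) ℂ :=
  Matrix.diagonal fun x => if e x.1 + f x.2 = 1 then 1 else 0

theorem pr_idem (e f : Fin n → ℤ) : pr e f * pr e f = pr e f := by
  unfold pr
  rw [Matrix.diagonal_mul_diagonal]
  congr 1
  funext x
  split_ifs <;> simp

theorem pr_comm (e f : Fin n → ℤ) (A B : G →* Matrix (Fin n) (Fin n) ℂ)
    (hA : ∀ g i j, A g i j ≠ 0 → e i = e j) (hB : ∀ g i j, B g i j ≠ 0 → f i = f j) (g : G) :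
    pr e f * kr A B g = kr A B g * pr e f := by
  unfold pr
  ext x y
  rw [Matrix.diagonal_mul, Matrix.mul_diagonal, kr_apply]
  by_cases h1 : A g x.1 y.1 = 0
  · rw [h1]; ring
  by_cases h2 : B g⁻¹ y.2 x.2 = 0
  · rw [h2]; ring
  rw [hA g _ _ h1, ← hB g⁻¹ _ _ h2, mul_comm]

end Pool.Agent.R837.NA
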