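import Pool.Agent.R837.NA.SymTest

/-!
# The averages of the traces on the spaces of matrices
-/

set_option autoImplicit false
set_option linter.unusedSectionVars false

namespace Pool.Agent.R837.NA

open Finset MvPolynomial Pool.Agent.R837.FE

variable {G : Type} [Group G] [Fintype G] {n : ℕ}

open Classical in
theorem avg_trGen (e f : Fin n → ℤ) (A B : G →* Matrix (Fin n) (Fin n) ℂ)
    (hA : ∀ g i j, A g i j ≠ 0 → e i = e j) (hB : ∀ g i j, B g i j ≠ 0 → f i = f j) :
    0 ≤ ∑ g, (trGen e f (A g) (B g⁻¹)).re := by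
  refine (avg_nonneg (kr A B) (pr e f) (pr_idem e f) (pr_comm e f A B hA hB)).trans
    (le_of_eq ?_)
  refine Finset.sum_congr rfl fun g _ => ?_
  congr 1
  unfold trGen pr Matrix.trace
  rw [Fintype.sum_prod_type]
  refine Finset.sum_congr rfl fun i _ => Finset.sum_congr rfl fun j _ => ?_
  rw [Matrix.diag_apply, Matrix.diagonal_mul, kr_apply]

/-- the exchange of the indices -/
def sw (n : ℕ) : Matrix (Fin n × Fin n) (Fin n × Fin n) ℂ :=
  Matrix.of fun x y => if x.swap = y then 1 else 0

theorem sw_mul (K : Matrix (Fin n × Fin n) (Fin n × Fin n) ℂ) (x y : Fin n × Fin n) :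
    (sw n * K) x y = K x.swap y := by
  rw [Matrix.mul_apply, Finset.sum_eq_single x.swap]
  · simp [sw]
  · intro z _ hz
    simp [sw, hz.symm]
  · intro h
    exact absurd (mem_univ _) h

theorem mul_sw (K : Matrix (Fin n × Fin n) (Fin n × Fin n) ℂ) (x y : Fin n × Fin n) :
    (K * sw n) x y = K x y.swap := by
  rw [Matrix.mul_apply, Finset.sum_eq_single y.swap]
  · simp [sw]
  · intro z _ hz
    have : ¬ z.swap = y := fun h => hz (by rw [← h, Prod.swap_swap])
    simp [sw, this]
  · intro h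
    exact absurd (mem_univ _) h

theorem sw_sw : sw n * sw n = 1 := by
  ext x y
  rw [sw_mul]
  simp [sw, Matrix.one_apply]

/-- the projection to the alternating or symmetric matrices -/
noncomputable def hs (n : ℕ) (s : ℂ) : Matrix (Fin n × Fin n) (Fin n × Fin n) ℂ :=
  (1 / 2 : ℂ) • (1 + s • sw n)

theorem hs_idem (s : ℂ) (h : s * s = 1) : hs n s * hs n s = hs n s := by
  unfold hs
  rw [Matrix.smul_mul, Matrix.mul_smul, smul_smul]
  have : ((1 : Matrix (Fin n × Fin n) (Fin n × Fin n) ℂ) + s • sw n) * (1 + s • sw n) =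
      (2 : ℂ) • (1 + s • sw n) := by
    simp only [Matrix.add_mul, Matrix.one_mul, Matrix.mul_one, Matrix.mul_add, Matrix.mul_smul,
      Matrix.smul_mul, sw_sw, smul_add, smul_smul, h, one_smul]
    module
  rw [this, smul_smul]
  norm_num

theorem hs_comm (s : ℂ) (K : Matrix (Fin n × Fin n) (Fin n × Fin n) ℂ)
    (h : ∀ x y, K x.swap y = K x y.swap) : hs n s * K = K * hs n s := by
  have h1 : sw n * K = K * sw n := by
    ext x y
    rw [sw_mul, mul_sw, h]
  unfold hs
  rw [Matrix.smul_mul, Matrix.mul_smul, Matrix.add_mul, Matrix.mul_add, Matrix.one_mul,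
    Matrix.mul_one, Matrix.smul_mul, Matrix.mul_smul, h1]

open Classical in
theorem avg_trSym (sym : Bool) (e f : Fin n → ℤ) (hsd : ∀ a b, e a + f b = e b + f a)
    (A B : G →* Matrix (Fin n) (Fin n) ℂ) (hA : ∀ g i j, A g i j ≠ 0 → e i = e j)
    (hBA : ∀ g, B g⁻¹ = (A g).transpose) :
    0 ≤ ∑ g, (trSym sym e f (A g)).re := by
  have hss : sg ℂ sym * sg ℂ sym = 1 := sg_mul_sg ℂ sym
  have hA' : ∀ g i j, A g i j ≠ 0 → f i = f j := fun g i j h => by
    have := hsd i j
    have := hA g i j h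
    omega
  have hB : ∀ g i j, B g i j ≠ 0 → f i = f j := by
    intro g i j h
    have h1 := hBA g⁻¹
    rw [inv_inv] at h1
    rw [h1, Matrix.transpose_apply] at h
    exact (hA' _ _ _ h).symm
  have hk : ∀ g x y, kr A B g x y = A g x.1 y.1 * A g x.2 y.2 := by
    intro g x y
    rw [kr_apply, hBA, Matrix.transpose_apply]
  have hc1 : ∀ g, hs n (sg ℂ sym) * kr A B g = kr A B g * hs n (sg ℂ sym) := by
    intro g
    apply hs_comm
    intro x y
    rw [hk, hk, Prod.fst_swap, Prod.snd_swap, Prod.fst_swap, Prod.snd_swap, mul_comm]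
  have hpr : ∀ x y, pr e f x.swap y = pr e f x y.swap := by
    intro x y
    unfold pr
    by_cases h : x.swap = y
    · rw [← h, Prod.swap_swap, Matrix.diagonal_apply_eq, Matrix.diagonal_apply_eq, Prod.fst_swap,
        Prod.snd_swap, hsd]
    · have h' : x ≠ y.swap := fun h' => h (by rw [h', Prod.swap_swap])
      rw [Matrix.diagonal_apply_ne _ h, Matrix.diagonal_apply_ne _ h']
  have hc2 : hs n (sg ℂ sym) * pr e f = pr e f * hs n (sg ℂ sym) := hs_comm _ _ hpr
  have hc3 := pr_comm e f A B hA hB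
  refine (avg_nonneg (kr A B) (pr e f * hs n (sg ℂ sym)) ?_ ?_).trans (le_of_eq ?_)
  · calc pr e f * hs n (sg ℂ sym) * (pr e f * hs n (sg ℂ sym))
        = pr e f * (hs n (sg ℂ sym) * pr e f) * hs n (sg ℂ sym) := by
          simp only [Matrix.mul_assoc]
      _ = (pr e f * pr e f) * (hs n (sg ℂ sym) * hs n (sg ℂ sym)) := by
          rw [hc2]
          simp only [Matrix.mul_assoc]
      _ = _ := by rw [pr_idem, hs_idem _ hss]
  · intro g
    rw [Matrix.mul_assoc, hc1, ← Matrix.mul_assoc, hc3, Matrix.mul_assoc]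
  · refine Finset.sum_congr rfl fun g _ => ?_
    congr 1
    unfold trSym Matrix.trace
    have h1 : ∀ x, (pr e f * hs n (sg ℂ sym) * kr A B g).diag x =
        (1 / 2 : ℂ) * ((if e x.1 + f x.2 = 1 then 1 else 0) * (A g x.1 x.1 * A g x.2 x.2) +
          sg ℂ sym * ((if e x.1 + f x.2 = 1 then 1 else 0) * (A g x.2 x.1 * A g x.1 x.2))) := by
      intro x
      rw [Matrix.diag_apply, Matrix.mul_assoc]
      unfold pr
      rw [Matrix.diagonal_mul]
      have h2 : (hs n (sg ℂ sym) * kr A B g) x x = (1 / 2 : ℂ) * (A g x.1 x.1 * A g x.2 x.2 +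
          sg ℂ sym * (A g x.2 x.1 * A g x.1 x.2)) := by
        unfold hs
        rw [Matrix.smul_mul, Matrix.add_mul, Matrix.one_mul, Matrix.smul_mul, Matrix.smul_apply,
          Matrix.add_apply, Matrix.smul_apply, sw_mul, hk, hk, Prod.fst_swap, Prod.snd_swap]
        rfl
      rw [h2]
      ring
    rw [Finset.sum_congr rfl fun x _ => h1 x, ← Finset.mul_sum, Finset.sum_add_distrib,
      ← Finset.mul_sum, Fintype.sum_prod_type, Fintype.sum_prod_type]
    congr 3
    refine Finset.sum_congr rfl fun i _ => ?_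
    rw [Matrix.mul_apply, Finset.mul_sum]
    refine Finset.sum_congr rfl fun j _ => ?_
    by_cases h : A g i j = 0
    · rw [h]
      ring
    · have h3 := hA' g i j h
      simp only
      rw [← h3]
      ring

end Pool.Agent.R837.NA
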