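import Pool.Agent.H964R2.Core.Count

/-!
# The inequality between traces and degrees, with multiplicities
-/

set_option autoImplicit false

namespace Pool.Agent.R837.NA

open Finset Pool.Agent.H964R2.Core

theorem dsumw {K : Type*} [Fintype K] (F : Finset ℂ) (R : K → Finset ℂ) (P : K → ℂ → Prop)
    [∀ k, DecidablePred (P k)] (hR1 : ∀ k r, r ∈ R k ↔ P k r) (hRF : ∀ k, R k ⊆ F) (c : K → ℂ)
    (g : ℂ → ℂ) :
    ∑ k, c k * ∑ r ∈ R k, g r =
      ∑ r ∈ F, (∑ k ∈ univ.filter (fun k => P k r), c k) * g r := by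
  classical
  have h1 : ∀ k, ∑ r ∈ R k, g r = ∑ r ∈ F, if P k r then g r else 0 := by
    intro k
    rw [← Finset.sum_filter]
    refine Finset.sum_congr ?_ (fun _ _ => rfl)
    ext r
    rw [Finset.mem_filter]
    constructor
    · intro hr; exact ⟨hRF k hr, (hR1 k r).mp hr⟩
    · intro hr; exact (hR1 k r).mpr hr.2
  have h2 : ∀ k, c k * ∑ r ∈ R k, g r = ∑ r ∈ F, if P k r then c k * g r else 0 := by
    intro k
    rw [h1 k, Finset.mul_sum]
    refine Finset.sum_congr rfl fun r _ => ?_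
    split_ifs
    · rfl
    · rw [mul_zero]
  rw [Finset.sum_congr rfl (fun k _ => h2 k), Finset.sum_comm]
  refine Finset.sum_congr rfl (fun r _ => ?_)
  rw [← Finset.sum_filter, Finset.sum_mul]

/-- The numerical inequality with test degrees at least one. -/
theorem count_ineq2 {K L : Type*} [Fintype K] [Fintype L] (lam : K → ℂ) (m : K → ℕ)
    (mu : L → ℂ) (d : L → ℕ) (hlam : ∀ k, ‖lam k‖ = 1) (hm : ∀ k, 0 < m k)
    (hmu : ∀ l, ‖mu l‖ = 1) (hd : ∀ l, 0 < d l) (Q : ℕ) (a : L → ℕ)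
    (h : ∀ t : ℂ, t ≠ 1 → Q * (univ.filter (fun k => lam k * t ^ m k = 1)).card ≤
      ∑ l ∈ univ.filter (fun l => mu l * t ^ d l = 1), a l) :
    (Q : ℝ) * (∑ k, (m k : ℝ)) - ∑ l, (a l : ℝ) * (d l : ℝ) ≤
      ((Q : ℂ) * ∑ k ∈ univ.filter (fun k => m k = 1), lam k -
        ∑ l ∈ univ.filter (fun l => d l = 1), (a l : ℂ) * mu l).re := by
  classical
  have hlam0 : ∀ k, lam k ≠ 0 := fun k h0 => by
    have := hlam k; rw [h0, norm_zero] at this; exact zero_ne_one this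
  have hmu0 : ∀ k, mu k ≠ 0 := fun k h0 => by
    have := hmu k; rw [h0, norm_zero] at this; exact zero_ne_one this
  choose R hR1 hR2 hR3 using fun k => rootset (lam k) (hlam0 k) (m k) (hm k)
  choose S hS1 hS2 hS3 using fun l => rootset (mu l) (hmu0 l) (d l) (hd l)
  set F : Finset ℂ := (univ.biUnion R) ∪ (univ.biUnion S) with hF
  have hRF : ∀ k, R k ⊆ F := fun k r hr => by
    rw [hF, mem_union, mem_biUnion]; exact Or.inl ⟨k, mem_univ _, hr⟩
  have hSF : ∀ k, S k ⊆ F := fun k r hr => by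
    rw [hF, mem_union, mem_biUnion, mem_biUnion]; exact Or.inr ⟨k, mem_univ _, hr⟩
  have hnorm : ∀ (c r : ℂ) (j : ℕ), 0 < j → ‖c‖ = 1 → c * r ^ j = 1 → ‖r‖ = 1 := by
    intro c r j hj hc hcr
    have h1 := congrArg norm hcr
    rw [norm_mul, hc, one_mul, norm_pow, norm_one] at h1
    exact (pow_eq_one_iff_of_nonneg (norm_nonneg _) hj.ne').mp h1
  have hFn : ∀ r ∈ F, ‖r‖ = 1 := by
    intro r hr
    rw [hF, mem_union, mem_biUnion, mem_biUnion] at hr
    rcases hr with ⟨k, _, hk⟩ | ⟨k, _, hk⟩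
    · exact hnorm _ _ _ (hm k) (hlam k) ((hR1 k r).mp hk)
    · exact hnorm _ _ _ (hd k) (hmu k) ((hS1 k r).mp hk)
  set α : ℂ → ℕ := fun r => Q * (univ.filter (fun k => lam k * r ^ m k = 1)).card with hα
  set β : ℂ → ℕ := fun r => ∑ l ∈ univ.filter (fun l => mu l * r ^ d l = 1), a l with hβ
  have hα' : ∀ r, ∑ _k ∈ univ.filter (fun k => lam k * r ^ m k = 1), (Q : ℂ) = (α r : ℂ) := by
    intro r
    rw [Finset.sum_const, nsmul_eq_mul, hα]
    push_cast
    ring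
  have hβ' : ∀ r, ∑ l ∈ univ.filter (fun l => mu l * r ^ d l = 1), (a l : ℂ) = (β r : ℂ) := by
    intro r
    rw [hβ]
    push_cast
    rfl
  have e1 : (Q : ℂ) * ∑ k ∈ univ.filter (fun k => m k = 1), lam k
      = ∑ r ∈ F, (α r : ℂ) * r⁻¹ := by
    have h1 := dsumw F R (fun k r => lam k * r ^ m k = 1) hR1 hRF (fun _ => (Q : ℂ))
      (fun r => r⁻¹)
    simp only [hα'] at h1
    rw [← h1, Finset.sum_filter, Finset.mul_sum]
    exact Finset.sum_congr rfl (fun k _ => by rw [hR3 k])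
  have e2 : ∑ l ∈ univ.filter (fun l => d l = 1), (a l : ℂ) * mu l
      = ∑ r ∈ F, (β r : ℂ) * r⁻¹ := by
    have h1 := dsumw F S (fun k r => mu k * r ^ d k = 1) hS1 hSF (fun l => (a l : ℂ))
      (fun r => r⁻¹)
    simp only [hβ'] at h1
    rw [← h1, Finset.sum_filter]
    refine Finset.sum_congr rfl (fun k _ => ?_)
    rw [hS3 k]
    split_ifs
    · rfl
    · rw [mul_zero]
  have e3 : (Q : ℂ) * (∑ k, (m k : ℂ)) = ∑ r ∈ F, (α r : ℂ) := by
    have h1 := dsumw F R (fun k r => lam k * r ^ m k = 1) hR1 hRF (fun _ => (Q : ℂ)) (fun _ => 1)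
    simp only [hα', mul_one] at h1
    rw [← h1, Finset.mul_sum]
    refine Finset.sum_congr rfl (fun k _ => ?_)
    rw [Finset.sum_const, hR2 k]; simp
  have e4 : (∑ l, (a l : ℂ) * (d l : ℂ)) = ∑ r ∈ F, (β r : ℂ) := by
    have h1 := dsumw F S (fun k r => mu k * r ^ d k = 1) hS1 hSF (fun l => (a l : ℂ)) (fun _ => 1)
    simp only [hβ', mul_one] at h1
    rw [← h1]
    refine Finset.sum_congr rfl (fun k _ => ?_)
    rw [Finset.sum_const, hS2 k]; simp
  have e3' : (Q : ℝ) * (∑ k, (m k : ℝ)) = ∑ r ∈ F, (α r : ℝ) := by exact_mod_cast e3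
  have e4' : (∑ l, (a l : ℝ) * (d l : ℝ)) = ∑ r ∈ F, (β r : ℝ) := by exact_mod_cast e4
  have e5 : ((Q : ℂ) * ∑ k ∈ univ.filter (fun k => m k = 1), lam k -
        ∑ l ∈ univ.filter (fun l => d l = 1), (a l : ℂ) * mu l).re =
      ∑ r ∈ F, ((α r : ℝ) - β r) * (r⁻¹).re := by
    rw [e1, e2, ← Finset.sum_sub_distrib, Complex.re_sum]
    refine Finset.sum_congr rfl (fun r _ => ?_)
    rw [← sub_mul]
    simp
  rw [e3', e4', e5, ← Finset.sum_sub_distrib]
  refine Finset.sum_le_sum (fun r hr => ?_)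
  by_cases h1 : r = 1
  · subst h1; simp
  · have h2 : (α r : ℝ) ≤ β r := by exact_mod_cast h r h1
    have h3 : (r⁻¹).re ≤ 1 := by
      refine (Complex.re_le_norm _).trans ?_
      rw [norm_inv, hFn r hr, inv_one]
    nlinarith

end Pool.Agent.R837.NA
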