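import Pool.Agent.R837.FE.GenBlock

/-!
# The count for an arbitrary square matrix, for one element of the group
-/

set_option autoImplicit false
set_option linter.unusedSectionVars false

namespace Pool.Agent.R837.NA

open Finset MvPolynomial Pool.Agent.TH144.NV Pool.Agent.R837.FE

section

variable {k : Type} [Field k] {G : Type} [Group G] {N : ℕ} {w : Fin N → ℕ} {α : Fin N → G →* kˣ}
  {n : ℕ}

open Classical in
theorem exists_ib_gen [CharZero k] (e f : Fin n → ℤ) (hpos : ∀ a b, 0 < e a + f b)
    (M : Matrix (Fin n) (Fin n) (MvPolynomial (Fin N) k))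
    (hhom : ∀ a b (m : ℕ), (m : ℤ) = e a + f b → IsWeightedHomogeneous w (M a b) m)
    (χ ψ : Fin n → G →* kˣ)
    (semi : ∀ g a b, Pool.Agent.TH144.NV.act (fun i => (α i g : k)) (M a b) =
      C ((χ a g * ψ b g : kˣ) : k) * M a b)
    {r : ℕ} (hr : r < n) (g : G) (μ : kˣ) (T : Finset (Fin N))
    (hT : ∀ i, i ∈ T ↔ α i g = μ ^ w i) :
    ∃ ib : IB k N w T,
      (∀ p, (ib.M.map (eval p)).rank ≤ ib.B.card → (M.map (eval p)).rank ≤ r) ∧
      n * (ib.kc - ib.tc) ≤ (n - r) * (univ.filter fun x : Fin n × Fin n =>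
        χ x.1 g * ψ x.2 g = μ ^ (e x.1 + f x.2).toNat).card := by
  obtain ⟨B, h1, h2, h3⟩ := comb_alt (sym := false) (R := RG (fun a => rc μ (χ a g) (e a))
      fun b => rc μ (ψ b g) (f b)) (by
        rintro (a | a) (b | b) h
        · exact h
        · exact h
        · exact h
        · exact h) rfl r
  have hB3 : r * Nat.card (K false (RG (fun a => rc μ (χ a g) (e a))
      fun b => rc μ (ψ b g) (f b))) ≤
      n * (tch false (RG (fun a => rc μ (χ a g) (e a)) fun b => rc μ (ψ b g) (f b)) B).card := by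
    rcases h3 with h3 | ⟨ν, h3, h4, h5, _⟩
    · rw [h3]
      exact Nat.mul_le_mul_right _ hr.le
    · rw [Two.card] at h4
      exact h5.trans (Nat.mul_le_mul_right _ (by omega))
  refine ⟨ibGen e f hpos M hhom χ ψ semi g μ T hT B h1, ?_, ?_⟩
  · intro p hrk
    apply rank_MG
    refine le_trans ?_ (hrk.trans h2)
    have h1 : (ibGen e f hpos M hhom χ ψ semi g μ T hT B h1).M.map (eval p) =
        MG (M.map (eval p)) := by
      ext x y
      rcases x with a | a <;> rcases y with b | b
      · exact map_zero (eval p)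
      · rfl
      · exact map_neg (eval p) _
      · exact map_zero (eval p)
    rw [h1]
    exact le_refl _
  · have h4 : (ibGen e f hpos M hhom χ ψ semi g μ T hT B h1).kc =
        (univ.filter fun x : Fin n × Fin n =>
          χ x.1 g * ψ x.2 g = μ ^ (e x.1 + f x.2).toNat).card := by
      show Nat.card (K false (RG (fun a => rc μ (χ a g) (e a))
        fun b => rc μ (ψ b g) (f b))) = _
      rw [card_K_gen]
      congr 1
      ext x
      rw [Finset.mem_filter, Finset.mem_filter, rc_mul_rc, rc_eq_one μ _ _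
        ((e x.1 + f x.2).toNat) (by have := hpos x.1 x.2; omega)]
    have h5 : r * (ibGen e f hpos M hhom χ ψ semi g μ T hT B h1).kc ≤
        n * (ibGen e f hpos M hhom χ ψ semi g μ T hT B h1).tc := hB3
    rw [← h4]
    set Kc := (ibGen e f hpos M hhom χ ψ semi g μ T hT B h1).kc
    set Tc := (ibGen e f hpos M hhom χ ψ semi g μ T hT B h1).tc
    rw [Nat.mul_sub]
    obtain ⟨d, hd⟩ := Nat.exists_eq_add_of_lt hr
    have h6 : (n - r) * Kc + r * Kc = n * Kc := by
      rw [hd]
      have : r + d + 1 - r = d + 1 := by omega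
      rw [this]
      ring
    omega

end

end Pool.Agent.R837.NA
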