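import Pool.Agent.R837.NA.Count2
import Pool.Agent.R837.NA.Gen2

/-!
# The inequality for one element
-/

set_option autoImplicit false
set_option linter.unusedSectionVars false

namespace Pool.Agent.R837.NA

open Finset MvPolynomial Pool.Agent.TH144.NV Pool.Agent.R837.FE

theorem unit_iff (x t : ℂˣ) (m : ℕ) : (x : ℂ) * (t : ℂ) ^ m = 1 ↔ x = t⁻¹ ^ m := by
  rw [← Units.val_pow_eq_pow_val, ← Units.val_mul, ← Units.val_one, Units.val_inj, inv_pow,
    mul_eq_one_iff_eq_inv]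

open Classical in
theorem per {N : ℕ} (w : Fin N → ℕ) (hw : ∀ i, 0 < w i) (lam : Fin N → ℂˣ)
    (hlam : ∀ i, ‖(lam i : ℂ)‖ = 1) {Λ : Type} [Fintype Λ] (rk : Λ → (Fin N → ℂ) → Prop)
    (Q : ℕ) (L : Λ → Type) [∀ l, Fintype (L l)] (a d : ∀ l, L l → ℕ) (mu : ∀ l, L l → ℂˣ)
    (hmu : ∀ l x, ‖(mu l x : ℂ)‖ = 1) (hd : ∀ l x, 0 < d l x)
    (hib : ∀ (l : Λ) (μ : ℂˣ) (T : Finset (Fin N)), (∀ i, i ∈ T ↔ lam i = μ ^ w i) →
      ∃ ib : IB ℂ N w T, (∀ p : Fin N → ℂ, (∀ i, i ∉ T → p i = 0) →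
        (ib.M.map (eval p)).rank ≤ ib.B.card → rk l p) ∧
        Q * (ib.kc - ib.tc) ≤ ∑ x ∈ univ.filter (fun x => mu l x = μ ^ d l x), a l x)
    (H0 : ∀ μ : ℂˣ, μ ≠ 1 → ∀ p : Fin N → ℂ, (∀ i, p i ≠ 0 → lam i = μ ^ w i) →
      (∀ l, rk l p) → p = 0) :
    (Q : ℝ) * (∑ i, (w i : ℝ)) - ∑ l, ∑ x, (a l x : ℝ) * (d l x : ℝ) ≤
      ((Q : ℂ) * ∑ i ∈ univ.filter (fun i => w i = 1), (lam i : ℂ) -
        ∑ l, ∑ x ∈ univ.filter (fun x => d l x = 1), (a l x : ℂ) * (mu l x : ℂ)).re := by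
  have h1 := count_ineq2 (fun i => (lam i : ℂ)) w (fun x : Σ l, L l => (mu x.1 x.2 : ℂ))
    (fun x => d x.1 x.2) hlam hw (fun x => hmu x.1 x.2) (fun x => hd x.1 x.2) Q
    (fun x => a x.1 x.2) (by
    intro t ht
    rcases eq_or_ne t 0 with h0 | h0
    · have h2 : (univ.filter (fun i => (lam i : ℂ) * t ^ w i = 1)) = ∅ := by
        rw [Finset.filter_eq_empty_iff]
        intro i _ h
        rw [h0, zero_pow (hw i).ne', mul_zero] at h
        exact zero_ne_one h
      rw [h2, Finset.card_empty, mul_zero]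
      exact Nat.zero_le _
    · set τ : ℂˣ := Units.mk0 t h0 with hτ
      have hτt : (τ : ℂ) = t := rfl
      have hμ : τ⁻¹ ≠ 1 := by
        intro h
        apply ht
        rw [← hτt, inv_eq_one.1 h, Units.val_one]
      set T : Finset (Fin N) := univ.filter fun i => lam i = τ⁻¹ ^ w i with hT
      have hT' : ∀ i, i ∈ T ↔ lam i = τ⁻¹ ^ w i := by
        intro i
        simp [hT]
      choose ib hib1 hib2 using fun l => hib l τ⁻¹ T hT'
      have h2 := key' w hw T ib (by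
        intro p hp hrk
        refine H0 τ⁻¹ hμ p ?_ fun l => hib1 l p hp (hrk l)
        intro i hi
        by_contra hcon
        exact hi (hp i fun h => hcon ((hT' i).1 h)))
      have e1 : (univ.filter (fun i => (lam i : ℂ) * t ^ w i = 1)) = T := by
        ext i
        rw [hT', Finset.mem_filter, ← hτt, unit_iff]
        simp
      rw [e1]
      calc Q * T.card ≤ Q * ∑ l, ((ib l).kc - (ib l).tc) := Nat.mul_le_mul_left _ h2
        _ = ∑ l, Q * ((ib l).kc - (ib l).tc) := Finset.mul_sum _ _ _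
        _ ≤ ∑ l, ∑ x ∈ univ.filter (fun x => mu l x = τ⁻¹ ^ d l x), a l x :=
            Finset.sum_le_sum fun l _ => hib2 l
        _ = ∑ x ∈ univ.filter (fun x : Σ l, L l => (mu x.1 x.2 : ℂ) * t ^ d x.1 x.2 = 1),
            a x.1 x.2 := by
            have e2 : (univ.filter (fun x : Σ l, L l =>
                (mu x.1 x.2 : ℂ) * t ^ d x.1 x.2 = 1)) =
                (univ : Finset Λ).sigma fun l => univ.filter (fun x => mu l x = τ⁻¹ ^ d l x) := by
              ext x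
              rw [Finset.mem_filter, Finset.mem_sigma, Finset.mem_filter, ← hτt, unit_iff]
              simp
            rw [e2, Finset.sum_sigma])
  rw [Fintype.sum_sigma] at h1
  have e3 : ∑ x ∈ univ.filter (fun x : Σ l, L l => d x.1 x.2 = 1),
      (a x.1 x.2 : ℂ) * (mu x.1 x.2 : ℂ) =
      ∑ l, ∑ x ∈ univ.filter (fun x => d l x = 1), (a l x : ℂ) * (mu l x : ℂ) := by
    have e2 : (univ.filter (fun x : Σ l, L l => d x.1 x.2 = 1)) =
        (univ : Finset Λ).sigma fun l => univ.filter (fun x => d l x = 1) := by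
      ext x
      simp
    rw [e2, Finset.sum_sigma]
  rw [e3] at h1
  exact h1

/-- the pairs `(u, c)` such that `m` is an eigenvector of `u` with the eigenvalue `c` -/
def eigGroup {N : ℕ} (m : MvPolynomial (Fin N) ℂ) : Subgroup ((Fin N → ℂˣ) × ℂˣ) where
  carrier := {x | Pool.Agent.TH144.NV.act (fun i => (x.1 i : ℂ)) m = C (x.2 : ℂ) * m}
  mul_mem' := by
    intro x y hx hy
    have h1 : ∀ q : MvPolynomial (Fin N) ℂ,
        Pool.Agent.TH144.NV.act (fun i => ((x * y).1 i : ℂ)) q =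
        Pool.Agent.TH144.NV.act (fun i => (x.1 i : ℂ))
          (Pool.Agent.TH144.NV.act (fun i => (y.1 i : ℂ)) q) := by
      intro q
      have h2 : Pool.Agent.TH144.NV.act (fun i => ((x * y).1 i : ℂ)) =
          (Pool.Agent.TH144.NV.act (fun i => (x.1 i : ℂ))).comp
          (Pool.Agent.TH144.NV.act (fun i => (y.1 i : ℂ))) := by
        apply MvPolynomial.algHom_ext
        intro i
        rw [AlgHom.comp_apply]
        unfold Pool.Agent.TH144.NV.act
        rw [aeval_X, aeval_X, map_mul, aeval_X, algHom_C]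
        simp only [Prod.fst_mul, Pi.mul_apply, Units.val_mul, C_mul]
        rw [MvPolynomial.algebraMap_eq]
        ring
      rw [h2]
      rfl
    show Pool.Agent.TH144.NV.act (fun i => ((x * y).1 i : ℂ)) m = C ((x * y).2 : ℂ) * m
    have hx' : Pool.Agent.TH144.NV.act (fun i => (x.1 i : ℂ)) m = C (x.2 : ℂ) * m := hx
    have hy' : Pool.Agent.TH144.NV.act (fun i => (y.1 i : ℂ)) m = C (y.2 : ℂ) * m := hy
    rw [h1, hy', map_mul, hx', algHom_C, MvPolynomial.algebraMap_eq, Prod.snd_mul,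
      Units.val_mul, C_mul]
    ring
  one_mem' := by
    show Pool.Agent.TH144.NV.act (fun i => (((1 : (Fin N → ℂˣ) × ℂˣ)).1 i : ℂ)) m =
      C (((1 : (Fin N → ℂˣ) × ℂˣ)).2 : ℂ) * m
    have h2 : Pool.Agent.TH144.NV.act (fun i => (((1 : (Fin N → ℂˣ) × ℂˣ)).1 i : ℂ)) =
        AlgHom.id ℂ (MvPolynomial (Fin N) ℂ) := by
      apply MvPolynomial.algHom_ext
      intro i
      unfold Pool.Agent.TH144.NV.act
      rw [aeval_X]
      simp
    rw [h2]
    simp
  inv_mem' := by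
    intro x hx
    have hx' : Pool.Agent.TH144.NV.act (fun i => (x.1 i : ℂ)) m = C (x.2 : ℂ) * m := hx
    have h1 : Pool.Agent.TH144.NV.act (fun i => ((x⁻¹).1 i : ℂ))
        (Pool.Agent.TH144.NV.act (fun i => (x.1 i : ℂ)) m) = m := by
      have h2 : (Pool.Agent.TH144.NV.act (fun i => ((x⁻¹).1 i : ℂ))).comp
          (Pool.Agent.TH144.NV.act (fun i => (x.1 i : ℂ))) =
          AlgHom.id ℂ (MvPolynomial (Fin N) ℂ) := by
        apply MvPolynomial.algHom_ext
        intro i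
        rw [AlgHom.comp_apply]
        unfold Pool.Agent.TH144.NV.act
        rw [aeval_X, map_mul, aeval_X, algHom_C, MvPolynomial.algebraMap_eq, ← mul_assoc,
          ← C_mul]
        simp
      exact DFunLike.congr_fun h2 m
    show Pool.Agent.TH144.NV.act (fun i => ((x⁻¹).1 i : ℂ)) m = C ((x⁻¹).2 : ℂ) * m
    rw [hx', map_mul, algHom_C, MvPolynomial.algebraMap_eq] at h1
    have h3 : (C ((x⁻¹).2 : ℂ) : MvPolynomial (Fin N) ℂ) * C (x.2 : ℂ) = 1 := by
      rw [← C_mul, Prod.snd_inv, Units.inv_mul, C_1]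
    calc Pool.Agent.TH144.NV.act (fun i => ((x⁻¹).1 i : ℂ)) m
        = (C ((x⁻¹).2 : ℂ) * C (x.2 : ℂ)) *
          Pool.Agent.TH144.NV.act (fun i => ((x⁻¹).1 i : ℂ)) m := by rw [h3, one_mul]
      _ = C ((x⁻¹).2 : ℂ) * m := by rw [mul_assoc, h1]

theorem semi_zpow {N : ℕ} (m : MvPolynomial (Fin N) ℂ) (u : Fin N → ℂˣ) (c : ℂˣ)
    (h : Pool.Agent.TH144.NV.act (fun i => (u i : ℂ)) m = C (c : ℂ) * m)
    (z : Multiplicative ℤ) :
    Pool.Agent.TH144.NV.act (fun i => ((zpowersHom ℂˣ (u i) z : ℂˣ) : ℂ)) m =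
      C ((zpowersHom ℂˣ c z : ℂˣ) : ℂ) * m := by
  have h1 : (u, c) ∈ eigGroup m := h
  have h2 := (eigGroup m).zpow_mem h1 z.toAdd
  exact h2

end Pool.Agent.R837.NA
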