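import Pool.Agent.R837.NA.Mat
import Pool.Agent.R837.NA.Per

/-!
# An equivariant square matrix and one element of the group
-/

set_option autoImplicit false
set_option linter.unusedSectionVars false

namespace Pool.Agent.R837.NA

open Finset MvPolynomial Pool.Agent.TH144.NV Pool.Agent.R837.FE

theorem act_eq_lin {N : ℕ} (lam : Fin N → ℂ) :
    Pool.Agent.TH144.NV.act lam = lin (Matrix.diagonal lam) := by
  apply MvPolynomial.algHom_ext
  intro i
  rw [lin_X]
  unfold Pool.Agent.TH144.NV.act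
  rw [aeval_X, Finset.sum_eq_single i]
  · rw [Matrix.diagonal_apply_eq, smul_eq_C_mul]
  · intro j _ hj
    rw [Matrix.diagonal_apply_ne _ hj.symm, zero_smul]
  · intro h
    exact absurd (mem_univ _) h

/-- a diagonalized element of the group acting on the variables -/
structure Dg {N : ℕ} (w : Fin N → ℕ) (Rg P P' : Matrix (Fin N) (Fin N) ℂ) (lam : Fin N → ℂˣ) :
    Prop where
  h1 : P * P' = 1
  h2 : P' * P = 1
  gr : ∀ i j, P i j ≠ 0 → w i = w j
  gr' : ∀ i j, P' i j ≠ 0 → w i = w j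
  eig : P * Rg = Matrix.diagonal (fun i => (lam i : ℂ)) * P
  norm : ∀ i, ‖(lam i : ℂ)‖ = 1

theorem exists_dg {N : ℕ} (w : Fin N → ℕ) (Rg : Matrix (Fin N) (Fin N) ℂ)
    (hA : ∀ i j, Rg i j ≠ 0 → w i = w j) {O : ℕ} (hO : 0 < O) (hAO : Rg ^ O = 1) :
    ∃ P P' lam, Dg w Rg P P' lam := by
  obtain ⟨P, P', lam, h1, h2, h3, h4, h5, h6⟩ := exists_diag w Rg hA hO hAO
  have h0 : ∀ i, lam i ≠ 0 := fun i h => by
    have := h6 i
    rw [h, norm_zero] at this
    exact zero_ne_one this
  exact ⟨P, P', fun i => Units.mk0 (lam i) (h0 i), h1, h2, h3, h4, h5, h6⟩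

variable {N : ℕ} {w : Fin N → ℕ} {Rg P P' : Matrix (Fin N) (Fin N) ℂ} {lam : Fin N → ℂˣ}

theorem Dg.eig' (D : Dg w Rg P P' lam) :
    P' * Matrix.diagonal (fun i => (lam i : ℂ)) = Rg * P' := by
  calc P' * Matrix.diagonal (fun i => (lam i : ℂ))
      = P' * (Matrix.diagonal (fun i => (lam i : ℂ)) * P) * P' := by
        rw [Matrix.mul_assoc, Matrix.mul_assoc, D.h1, Matrix.mul_one]
    _ = P' * P * Rg * P' := by rw [← D.eig, ← Matrix.mul_assoc]
    _ = Rg * P' := by rw [D.h2, Matrix.one_mul]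

theorem Dg.act_lin (D : Dg w Rg P P' lam) (q : MvPolynomial (Fin N) ℂ) :
    Pool.Agent.TH144.NV.act (fun i => (lam i : ℂ)) (lin P' q) = lin P' (lin Rg q) := by
  rw [act_eq_lin, lin_lin, lin_lin, D.eig']

/-- fixed lines in the new coordinates are fixed lines -/
theorem Dg.fixed (D : Dg w Rg P P' lam) (μ : ℂˣ) (p : Fin N → ℂ)
    (hp : ∀ i, p i ≠ 0 → lam i = μ ^ w i) (i : Fin N) :
    (Rg.mulVec (P'.mulVec p)) i = (μ : ℂ) ^ w i * (P'.mulVec p) i := by
  rw [Matrix.mulVec_mulVec, ← D.eig', ← Matrix.mulVec_mulVec]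
  have h1 : (Matrix.diagonal (fun i => (lam i : ℂ))).mulVec p =
      fun j => (μ : ℂ) ^ w j * p j := by
    funext j
    rw [Matrix.mulVec_diagonal]
    by_cases h : p j = 0
    · rw [h, mul_zero, mul_zero]
    · rw [hp j h, Units.val_pow_eq_pow_val]
  rw [h1]
  simp only [Matrix.mulVec, dotProduct]
  rw [Finset.mul_sum]
  refine Finset.sum_congr rfl fun j _ => ?_
  by_cases h : P' i j = 0
  · rw [h, zero_mul, zero_mul, mul_zero]
  · rw [D.gr' i j h]
    ring

theorem Dg.eq_zero (D : Dg w Rg P P' lam) (p : Fin N → ℂ) (h : P'.mulVec p = 0) : p = 0 := by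
  have h1 : P.mulVec (P'.mulVec p) = 0 := by rw [h, Matrix.mulVec_zero]
  rwa [Matrix.mulVec_mulVec, D.h1, Matrix.one_mulVec] at h1

/-- double weighted traces -/
theorem sum_diag2 {n m : ℕ} (e : Fin n → ℤ) (f : Fin m → ℤ)
    (A PA PA' : Matrix (Fin n) (Fin n) ℂ) (la : Fin n → ℂ)
    (h1 : PA * PA' = 1) (h2 : PA' * PA = 1) (h3 : ∀ i j, PA i j ≠ 0 → e i = e j)
    (h4 : PA * A = Matrix.diagonal la * PA)
    (B PB PB' : Matrix (Fin m) (Fin m) ℂ) (lb : Fin m → ℂ)
    (k1 : PB * PB' = 1) (k2 : PB' * PB = 1) (k3 : ∀ i j, PB i j ≠ 0 → f i = f j)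
    (k4 : PB * B = Matrix.diagonal lb * PB) (c : ℤ → ℤ → ℂ) :
    ∑ i, ∑ j, c (e i) (f j) * (A i i * B j j) = ∑ i, ∑ j, c (e i) (f j) * (la i * lb j) := by
  have s1 := sum_diag e A PA PA' la h1 h2 h3 h4 (fun u => ∑ j, c u (f j) * B j j)
  have s2 := sum_diag f B PB PB' lb k1 k2 k3 k4 (fun v => ∑ i, c (e i) v * la i)
  calc ∑ i, ∑ j, c (e i) (f j) * (A i i * B j j)
      = ∑ i, (∑ j, c (e i) (f j) * B j j) * A i i := by
        refine Finset.sum_congr rfl fun i _ => ?_
        rw [Finset.sum_mul]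
        exact Finset.sum_congr rfl fun j _ => by ring
    _ = ∑ i, (∑ j, c (e i) (f j) * B j j) * la i := s1
    _ = ∑ j, (∑ i, c (e i) (f j) * la i) * B j j := by
        simp only [Finset.sum_mul]
        rw [Finset.sum_comm]
        exact Finset.sum_congr rfl fun j _ => Finset.sum_congr rfl fun i _ => by ring
    _ = ∑ j, (∑ i, c (e i) (f j) * la i) * lb j := s2
    _ = ∑ i, ∑ j, c (e i) (f j) * (la i * lb j) := by
        simp only [Finset.sum_mul]
        rw [Finset.sum_comm]
        exact Finset.sum_congr rfl fun j _ => Finset.sum_congr rfl fun i _ => by ring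

/-- a matrix in the eigencoordinates -/
noncomputable def newM {n : ℕ} (P' : Matrix (Fin N) (Fin N) ℂ) (PA PB : Matrix (Fin n) (Fin n) ℂ)
    (M : Matrix (Fin n) (Fin n) (MvPolynomial (Fin N) ℂ)) :
    Matrix (Fin n) (Fin n) (MvPolynomial (Fin N) ℂ) :=
  (PA.map C * M * (PB.transpose).map C).map (lin P')

theorem newM_hom {n : ℕ} {P' : Matrix (Fin N) (Fin N) ℂ} (gr' : ∀ i j, P' i j ≠ 0 → w i = w j)
    (e f : Fin n → ℤ) (PA PB : Matrix (Fin n) (Fin n) ℂ) (h3 : ∀ i j, PA i j ≠ 0 → e i = e j)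
    (k3 : ∀ i j, PB i j ≠ 0 → f i = f j)
    (M : Matrix (Fin n) (Fin n) (MvPolynomial (Fin N) ℂ))
    (hhom : ∀ a b (m : ℕ), (m : ℤ) = e a + f b → IsWeightedHomogeneous w (M a b) m)
    (a b : Fin n) (m : ℕ) (hm : (m : ℤ) = e a + f b) :
    IsWeightedHomogeneous w (newM P' PA PB M a b) m := by
  unfold newM
  rw [Matrix.map_apply]
  apply lin_hom gr'
  rw [Matrix.mul_apply]
  refine IsWeightedHomogeneous.sum _ _ _ fun d _ => ?_
  rw [Matrix.mul_apply, Finset.sum_mul]
  refine IsWeightedHomogeneous.sum _ _ _ fun c _ => ?_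
  rw [Matrix.map_apply, Matrix.map_apply, Matrix.transpose_apply]
  by_cases h : PA a c = 0
  · rw [h, C_0, zero_mul, zero_mul]; exact isWeightedHomogeneous_zero _ _ _
  by_cases h' : PB b d = 0
  · rw [h', C_0, mul_zero]; exact isWeightedHomogeneous_zero _ _ _
  have h4 := hhom c d m (by rw [hm, h3 a c h, k3 b d h'])
  have h5 := ((isWeightedHomogeneous_C w (PA a c)).mul h4).mul (isWeightedHomogeneous_C w (PB b d))
  rwa [zero_add, add_zero] at h5

theorem map_C_lin {n : ℕ} (R : Matrix (Fin N) (Fin N) ℂ) (A : Matrix (Fin n) (Fin n) ℂ) :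
    (A.map (C : ℂ → MvPolynomial (Fin N) ℂ)).map (lin R) = A.map C := by
  ext1 i j
  rw [Matrix.map_apply, Matrix.map_apply]
  exact algHom_C _ _

theorem newM_semi {n : ℕ} (D : Dg w Rg P P' lam) (A B PA PB : Matrix (Fin n) (Fin n) ℂ)
    (la lb : Fin n → ℂ) (h4 : PA * A = Matrix.diagonal la * PA)
    (k4 : PB * B.transpose = Matrix.diagonal lb * PB)
    (M : Matrix (Fin n) (Fin n) (MvPolynomial (Fin N) ℂ))
    (hM : M.map (lin Rg) = A.map C * M * B.map C) (a b : Fin n) :
    Pool.Agent.TH144.NV.act (fun i => (lam i : ℂ)) (newM P' PA PB M a b) =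
      C (la a * lb b) * newM P' PA PB M a b := by
  have k5 : B * PB.transpose = PB.transpose * Matrix.diagonal lb := by
    have := congrArg Matrix.transpose k4
    rwa [Matrix.transpose_mul, Matrix.transpose_transpose, Matrix.transpose_mul,
      Matrix.diagonal_transpose] at this
  have h5 : (PA.map C * M * (PB.transpose).map C).map (lin Rg) =
      (Matrix.diagonal la).map C * (PA.map C * M * (PB.transpose).map C) *
        (Matrix.diagonal lb).map C := by
    rw [Matrix.map_mul, Matrix.map_mul, map_C_lin, map_C_lin, hM]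
    have e1 : (PA.map (C : ℂ → MvPolynomial (Fin N) ℂ)) * A.map C =
        (Matrix.diagonal la).map C * PA.map C := by
      rw [← Matrix.map_mul, ← Matrix.map_mul, h4]
    have e2 : (B.map (C : ℂ → MvPolynomial (Fin N) ℂ)) * (PB.transpose).map C =
        (PB.transpose).map C * (Matrix.diagonal lb).map C := by
      rw [← Matrix.map_mul, ← Matrix.map_mul, k5]
    calc PA.map C * (A.map C * M * B.map C) * (PB.transpose).map C
        = (PA.map C * A.map C) * M * (B.map C * (PB.transpose).map C) := by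
          simp only [Matrix.mul_assoc]
      _ = _ := by
          rw [e1, e2]
          simp only [Matrix.mul_assoc]
  unfold newM
  rw [Matrix.map_apply, D.act_lin]
  have h6 : lin Rg ((PA.map C * M * (PB.transpose).map C :
        Matrix (Fin n) (Fin n) (MvPolynomial (Fin N) ℂ)) a b) =
      C (la a * lb b) * ((PA.map C * M * (PB.transpose).map C :
        Matrix (Fin n) (Fin n) (MvPolynomial (Fin N) ℂ)) a b) := by
    have h7 := congrFun (congrFun h5 a) b
    rw [Matrix.map_apply] at h7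
    rw [h7]
    have e3 : (Matrix.diagonal la).map (C : ℂ → MvPolynomial (Fin N) ℂ) =
        Matrix.diagonal (fun i => C (la i)) := Matrix.diagonal_map C_0
    have e4 : (Matrix.diagonal lb).map (C : ℂ → MvPolynomial (Fin N) ℂ) =
        Matrix.diagonal (fun i => C (lb i)) := Matrix.diagonal_map C_0
    rw [e3, e4, Matrix.mul_diagonal, Matrix.diagonal_mul, C_mul]
    ring
  rw [h6, map_mul, algHom_C, MvPolynomial.algebraMap_eq]

theorem newM_rank {n : ℕ} (PA PA' PB PB' : Matrix (Fin n) (Fin n) ℂ) (h2 : PA' * PA = 1)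
    (k2 : PB' * PB = 1) (M : Matrix (Fin n) (Fin n) (MvPolynomial (Fin N) ℂ)) (p : Fin N → ℂ) :
    (M.map (eval (P'.mulVec p))).rank ≤ ((newM P' PA PB M).map (eval p)).rank := by
  have h1 : (newM P' PA PB M).map (eval p) =
      PA * M.map (eval (P'.mulVec p)) * PB.transpose := by
    have e1 : (newM P' PA PB M).map (eval p) =
        (PA.map C * M * (PB.transpose).map C).map (eval (P'.mulVec p)) := by
      unfold newM
      ext i j
      rw [Matrix.map_apply, Matrix.map_apply, Matrix.map_apply, eval_lin]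
    have e2 : ∀ A : Matrix (Fin n) (Fin n) ℂ,
        (A.map (C : ℂ → MvPolynomial (Fin N) ℂ)).map (eval (P'.mulVec p)) = A := by
      intro A
      ext i j
      rw [Matrix.map_apply, Matrix.map_apply, eval_C]
    rw [e1, Matrix.map_mul, Matrix.map_mul, e2, e2]
  have h3 : PA' * ((newM P' PA PB M).map (eval p)) * PB'.transpose =
      M.map (eval (P'.mulVec p)) := by
    rw [h1]
    have e3 : PB.transpose * PB'.transpose = 1 := by
      rw [← Matrix.transpose_mul, k2, Matrix.transpose_one]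
    calc PA' * (PA * M.map (eval (P'.mulVec p)) * PB.transpose) * PB'.transpose
        = (PA' * PA) * M.map (eval (P'.mulVec p)) * (PB.transpose * PB'.transpose) := by
          simp only [Matrix.mul_assoc]
      _ = _ := by rw [h2, e3, Matrix.one_mul, Matrix.mul_one]
  rw [← h3]
  refine (Matrix.rank_mul_le _ _).trans ((min_le_left _ _).trans ?_)
  exact (Matrix.rank_mul_le _ _).trans (min_le_right _ _)

end Pool.Agent.R837.NA
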