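import Pool.Agent.R837.NA.Act

/-!
# Linear substitutions and graded eigenbases
-/

set_option autoImplicit false
set_option linter.unusedSectionVars false

namespace Pool.Agent.R837.NA

open MvPolynomial Pool.Agent.H964R2.Core

variable {n : ℕ}

/-- the substitution `X i ↦ ∑ j, A i j X j` -/
noncomputable def lin (A : Matrix (Fin n) (Fin n) ℂ) :
    MvPolynomial (Fin n) ℂ →ₐ[ℂ] MvPolynomial (Fin n) ℂ :=
  aeval fun i => ∑ j, A i j • (X j : MvPolynomial (Fin n) ℂ)

theorem lin_X (A : Matrix (Fin n) (Fin n) ℂ) (i : Fin n) :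
    lin A (X i) = ∑ j, A i j • (X j : MvPolynomial (Fin n) ℂ) := aeval_X _ _

theorem lin_lin (A B : Matrix (Fin n) (Fin n) ℂ) (p : MvPolynomial (Fin n) ℂ) :
    lin A (lin B p) = lin (B * A) p := by
  have h : (lin A).comp (lin B) = lin (B * A) := by
    apply MvPolynomial.algHom_ext
    intro i
    rw [AlgHom.comp_apply, lin_X, lin_X, map_sum]
    simp only [map_smul, lin_X, Finset.smul_sum, smul_smul]
    rw [Finset.sum_comm]
    refine Finset.sum_congr rfl fun j _ => ?_
    rw [← Finset.sum_smul, Matrix.mul_apply]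
  exact DFunLike.congr_fun h p

theorem lin_one (p : MvPolynomial (Fin n) ℂ) : lin 1 p = p := by
  have h : lin (1 : Matrix (Fin n) (Fin n) ℂ) = AlgHom.id ℂ _ := by
    apply MvPolynomial.algHom_ext
    intro i
    rw [lin_X]
    simp [Matrix.one_apply]
  rw [h]
  rfl

theorem eval_lin (A : Matrix (Fin n) (Fin n) ℂ) (p : Fin n → ℂ) (q : MvPolynomial (Fin n) ℂ) :
    eval p (lin A q) = eval (A.mulVec p) q := by
  have h : ((aeval p : MvPolynomial (Fin n) ℂ →ₐ[ℂ] ℂ)).comp (lin A) =
      (aeval (A.mulVec p) : MvPolynomial (Fin n) ℂ →ₐ[ℂ] ℂ) := by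
    apply MvPolynomial.algHom_ext
    intro i
    rw [AlgHom.comp_apply, lin_X, map_sum, aeval_X]
    simp only [map_smul, aeval_X, smul_eq_mul]
    rfl
  have h1 := DFunLike.congr_fun h q
  rw [AlgHom.comp_apply, aeval_eq_eval, aeval_eq_eval] at h1
  exact h1

/-- substitutions with an inverse -/
noncomputable def linE (A B : Matrix (Fin n) (Fin n) ℂ) (h : A * B = 1) (h' : B * A = 1) :
    MvPolynomial (Fin n) ℂ ≃ₐ[ℂ] MvPolynomial (Fin n) ℂ :=
  AlgEquiv.ofAlgHom (lin A) (lin B)
    (by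
      apply MvPolynomial.algHom_ext
      intro i
      rw [AlgHom.comp_apply, lin_lin, h', lin_one]
      rfl)
    (by
      apply MvPolynomial.algHom_ext
      intro i
      rw [AlgHom.comp_apply, lin_lin, h, lin_one]
      rfl)

theorem linE_apply (A B : Matrix (Fin n) (Fin n) ℂ) (h : A * B = 1) (h' : B * A = 1)
    (p : MvPolynomial (Fin n) ℂ) : linE A B h h' p = lin A p := rfl

theorem linE_pow (A B : Matrix (Fin n) (Fin n) ℂ) (h : A * B = 1) (h' : B * A = 1) (k : ℕ)
    (p : MvPolynomial (Fin n) ℂ) : (linE A B h h' ^ k) p = lin (A ^ k) p := by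
  induction k generalizing p with
  | zero => rw [pow_zero, pow_zero, lin_one]; rfl
  | succ k ih =>
    rw [pow_succ, AlgEquiv.mul_apply, ih, linE_apply, lin_lin, pow_succ']

/-- homogeneity under graded substitutions -/
theorem lin_hom {w : Fin n → ℕ} {A : Matrix (Fin n) (Fin n) ℂ}
    (hA : ∀ i j, A i j ≠ 0 → w i = w j) {q : MvPolynomial (Fin n) ℂ} {m : ℕ}
    (hq : IsWeightedHomogeneous w q m) : IsWeightedHomogeneous w (lin A q) m := by
  classical
  have hX : ∀ i, IsWeightedHomogeneous w (∑ j, A i j • (X j : MvPolynomial (Fin n) ℂ)) (w i) := by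
    intro i
    refine IsWeightedHomogeneous.sum _ _ _ fun j _ => ?_
    by_cases h : A i j = 0
    · rw [h, zero_smul]; exact isWeightedHomogeneous_zero _ _ _
    · rw [hA i j h]
      exact (mem_weightedHomogeneousSubmodule ℂ w _ _).1 (Submodule.smul_mem _ _
        ((mem_weightedHomogeneousSubmodule ℂ w _ _).2 (isWeightedHomogeneous_X ℂ w j)))
  rw [q.as_sum, map_sum]
  refine IsWeightedHomogeneous.sum _ _ _ fun s hs => ?_
  unfold lin
  rw [aeval_monomial]
  have h1 := hq (MvPolynomial.mem_support_iff.mp hs)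
  rw [Finsupp.weight_apply] at h1
  have h2 : IsWeightedHomogeneous w
      (s.prod fun i k => (∑ j, A i j • (X j : MvPolynomial (Fin n) ℂ)) ^ k) m := by
    rw [← h1]
    exact IsWeightedHomogeneous.prod (w := w) s.support _ (fun i => s i • w i)
      (fun i _ => (hX i).pow (s i))
  have h3 := (isWeightedHomogeneous_C w (coeff s q)).mul h2
  rw [zero_add] at h3
  exact h3

theorem exists_coeff {V : Type*} [AddCommGroup V] [Module ℂ V] (b : Fin n → V) {S : Set (Fin n)}
    {q : V} (hq : q ∈ Submodule.span ℂ (b '' S)) :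
    ∃ c : Fin n → ℂ, (∀ j, c j ≠ 0 → j ∈ S) ∧ q = ∑ j, c j • b j := by
  classical
  refine Submodule.span_induction (p := fun q _ => ∃ c : Fin n → ℂ, (∀ j, c j ≠ 0 → j ∈ S) ∧
    q = ∑ j, c j • b j) ?_ ?_ ?_ ?_ hq
  · rintro _ ⟨i, hi, rfl⟩
    refine ⟨Pi.single i 1, ?_, ?_⟩
    · intro j hj
      by_cases h : j = i
      · rw [h]; exact hi
      · rw [Pi.single_eq_of_ne h] at hj
        exact absurd rfl hj
    · rw [Finset.sum_eq_single i]
      · rw [Pi.single_eq_same, one_smul]
      · intro j _ hj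
        rw [Pi.single_eq_of_ne hj, zero_smul]
      · intro h; exact absurd (Finset.mem_univ _) h
  · exact ⟨0, fun j hj => absurd rfl hj, by simp⟩
  · rintro _ _ _ _ ⟨c, hc, rfl⟩ ⟨c', hc', rfl⟩
    refine ⟨c + c', ?_, ?_⟩
    · intro j hj
      by_cases h : c j = 0
      · apply hc'
        intro h'
        apply hj
        rw [Pi.add_apply, h, h', add_zero]
      · exact hc j h
    · rw [← Finset.sum_add_distrib]
      exact Finset.sum_congr rfl fun j _ => (add_smul _ _ _).symm
  · rintro a _ _ ⟨c, hc, rfl⟩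
    refine ⟨a • c, ?_, ?_⟩
    · intro j hj
      apply hc
      intro h
      apply hj
      rw [Pi.smul_apply, h, smul_zero]
    · rw [Finset.smul_sum]
      exact Finset.sum_congr rfl fun j _ => by rw [smul_smul]; rfl

theorem eq_of_sum_X {A B : Matrix (Fin n) (Fin n) ℂ} (h : ∀ i,
    ∑ j, A i j • (X j : MvPolynomial (Fin n) ℂ) = ∑ j, B i j • (X j : MvPolynomial (Fin n) ℂ)) :
    A = B := by
  ext i j
  have h1 : ∑ j, (A i j - B i j) • (X j : MvPolynomial (Fin n) ℂ) = 0 := by
    simp only [sub_smul, Finset.sum_sub_distrib]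
    rw [h i, sub_self]
  have h2 := Fintype.linearIndependent_iff.1 (linearIndependent_X (σ := Fin n) ℂ)
    (fun j => A i j - B i j) h1 j
  exact sub_eq_zero.1 h2

/-- graded diagonalization of a matrix of finite order, natural degrees -/
theorem exists_diag (w : Fin n → ℕ) (A : Matrix (Fin n) (Fin n) ℂ)
    (hA : ∀ i j, A i j ≠ 0 → w i = w j) {N : ℕ} (hN : 0 < N) (hAN : A ^ N = 1) :
    ∃ (P P' : Matrix (Fin n) (Fin n) ℂ) (lam : Fin n → ℂ), P * P' = 1 ∧ P' * P = 1 ∧
      (∀ i j, P i j ≠ 0 → w i = w j) ∧ (∀ i j, P' i j ≠ 0 → w i = w j) ∧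
      P * A = Matrix.diagonal lam * P ∧ ∀ i, ‖lam i‖ = 1 := by
  classical
  obtain ⟨N, rfl⟩ : ∃ m, N = m + 1 := ⟨N - 1, by omega⟩
  have h1 : A * A ^ N = 1 := by rw [← pow_succ', hAN]
  have h2 : A ^ N * A = 1 := by rw [← pow_succ, hAN]
  set T := linE A (A ^ N) h1 h2 with hT
  have hTN : T ^ (N + 1) = 1 := by
    apply AlgEquiv.ext
    intro p
    rw [hT, linE_pow, hAN, lin_one]
    rfl
  have hTX : ∀ i, T (X i) ∈
      Submodule.span ℂ ((X : Fin n → MvPolynomial (Fin n) ℂ) '' {k | w k = w i}) := by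
    intro i
    rw [hT, linE_apply, lin_X]
    refine Submodule.sum_mem _ fun j _ => ?_
    by_cases h : A i j = 0
    · rw [h, zero_smul]; exact Submodule.zero_mem _
    · exact Submodule.smul_mem _ _ (Submodule.subset_span ⟨j, (hA i j h).symm, rfl⟩)
  obtain ⟨B⟩ := exists_eig w T hN hTN hTX
  have hcard : ∀ d, Fintype.card {k // B.m k = d} = Fintype.card {i // w i = d} := by
    intro d
    have e1 := finrank_span_eq_card (R := ℂ) (b := fun k : {k // B.m k = d} => B.b k)
      (B.li.comp _ Subtype.val_injective)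
    have e2 := finrank_span_eq_card (R := ℂ)
      (b := fun k : {i // w i = d} => (X k.1 : MvPolynomial (Fin n) ℂ))
      ((linearIndependent_X (σ := Fin n) ℂ).comp _ Subtype.val_injective)
    rw [← e1, ← e2]
    have e3 : Set.range (fun k : {k // B.m k = d} => B.b k) = B.b '' {k | B.m k = d} := by
      ext q
      constructor
      · rintro ⟨k, rfl⟩
        exact ⟨k.1, k.2, rfl⟩
      · rintro ⟨k, hk, rfl⟩
        exact ⟨⟨k, hk⟩, rfl⟩
    have e4 : Set.range (fun k : {i // w i = d} => (X k.1 : MvPolynomial (Fin n) ℂ)) =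
        (X : Fin n → MvPolynomial (Fin n) ℂ) '' {i | w i = d} := by
      ext q
      constructor
      · rintro ⟨k, rfl⟩
        exact ⟨k.1, k.2, rfl⟩
      · rintro ⟨k, hk, rfl⟩
        exact ⟨⟨k, hk⟩, rfl⟩
    rw [e3, e4, B.span]
  let E : B.K ≃ Fin n := Equiv.ofFiberEquiv (f := B.m) (g := w) fun d =>
    Fintype.equivOfCardEq (hcard d)
  have hE : ∀ k, w (E k) = B.m k := fun k => Equiv.ofFiberEquiv_map _ k
  let b : Fin n → MvPolynomial (Fin n) ℂ := fun i => B.b (E.symm i)
  have hb1 : ∀ i, b i ∈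
      Submodule.span ℂ ((X : Fin n → MvPolynomial (Fin n) ℂ) '' {k | w k = w i}) := by
    intro i
    have h3 := B.mem_span (E.symm i)
    rwa [← hE, Equiv.apply_symm_apply] at h3
  have hb2 : ∀ i, (X i : MvPolynomial (Fin n) ℂ) ∈
      Submodule.span ℂ (b '' {k | w k = w i}) := by
    intro i
    have h3 : (X i : MvPolynomial (Fin n) ℂ) ∈
        Submodule.span ℂ ((X : Fin n → MvPolynomial (Fin n) ℂ) '' {k | w k = w i}) :=
      Submodule.subset_span ⟨i, rfl, rfl⟩
    rw [← B.span] at h3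
    refine Submodule.span_mono ?_ h3
    rintro _ ⟨k, hk, rfl⟩
    refine ⟨E k, ?_, ?_⟩
    · show w (E k) = w i
      rw [hE]; exact hk
    · show B.b (E.symm (E k)) = B.b k
      rw [Equiv.symm_apply_apply]
  choose P hP1 hP2 using fun i => exists_coeff (X : Fin n → MvPolynomial (Fin n) ℂ) (hb1 i)
  choose P' hP1' hP2' using fun i => exists_coeff b (hb2 i)
  have h5 : (Matrix.of P') * (Matrix.of P) = 1 := by
    apply eq_of_sum_X
    intro i
    have h6 : ∑ j, (1 : Matrix (Fin n) (Fin n) ℂ) i j • (X j : MvPolynomial (Fin n) ℂ) = X i := by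
      simp [Matrix.one_apply]
    rw [h6, hP2' i]
    simp only [Matrix.mul_apply, Matrix.of_apply, Finset.sum_smul]
    rw [Finset.sum_comm]
    refine Finset.sum_congr rfl fun j _ => ?_
    rw [hP2 j, Finset.smul_sum]
    exact Finset.sum_congr rfl fun l _ => by rw [smul_smul]
  refine ⟨Matrix.of P, Matrix.of P', fun i => B.lam (E.symm i), mul_eq_one_comm.1 h5, h5,
    fun i j h => (hP1 i j h).symm, fun i j h => (hP1' i j h).symm, ?_,
    fun i => B.norm _⟩
  apply eq_of_sum_X
  intro i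
  have h6 : lin A (b i) = B.lam (E.symm i) • b i := B.eig _
  rw [hP2 i, map_sum] at h6
  simp only [map_smul, lin_X, Finset.smul_sum, smul_smul] at h6
  rw [Finset.sum_comm] at h6
  have h7 : ∀ j, (Matrix.diagonal (fun i => B.lam (E.symm i)) * Matrix.of P) i j =
      B.lam (E.symm i) * P i j := fun j => Matrix.diagonal_mul _ _ _ _
  simp only [h7]
  simp only [Matrix.mul_apply, Matrix.of_apply]
  rw [← h6]
  refine Finset.sum_congr rfl fun j _ => ?_
  rw [Finset.sum_smul]

/-- graded diagonalization of a matrix of finite order, integral degrees -/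
theorem exists_diag' (e : Fin n → ℤ) (A : Matrix (Fin n) (Fin n) ℂ)
    (hA : ∀ i j, A i j ≠ 0 → e i = e j) {N : ℕ} (hN : 0 < N) (hAN : A ^ N = 1) :
    ∃ (P P' : Matrix (Fin n) (Fin n) ℂ) (lam : Fin n → ℂ), P * P' = 1 ∧ P' * P = 1 ∧
      (∀ i j, P i j ≠ 0 → e i = e j) ∧ P * A = Matrix.diagonal lam * P ∧ ∀ i, ‖lam i‖ = 1 := by
  obtain ⟨c, hc⟩ : ∃ c : ℤ, ∀ i, 0 ≤ e i + c := by
    refine ⟨∑ i, |e i|, fun i => ?_⟩
    have h1 : |e i| ≤ ∑ i, |e i| :=
      Finset.single_le_sum (f := fun i => |e i|) (fun j _ => abs_nonneg _) (Finset.mem_univ i)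
    have h2 := neg_abs_le (e i)
    linarith
  have hw : ∀ i j, (e i + c).toNat = (e j + c).toNat ↔ e i = e j := by
    intro i j
    have h1 := hc i
    have h2 := hc j
    omega
  obtain ⟨P, P', lam, h1, h2, h3, -, h5, h6⟩ := exists_diag (fun i => (e i + c).toNat) A
    (fun i j h => (hw i j).2 (hA i j h)) hN hAN
  exact ⟨P, P', lam, h1, h2, fun i j h => (hw i j).1 (h3 i j h), h5, h6⟩

/-- weighted traces -/
theorem sum_diag {ι : Type} (e : Fin n → ι) (A P P' : Matrix (Fin n) (Fin n) ℂ) (lam : Fin n → ℂ)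
    (h1 : P * P' = 1) (h2 : P' * P = 1) (h3 : ∀ i j, P i j ≠ 0 → e i = e j)
    (h4 : P * A = Matrix.diagonal lam * P) (φ : ι → ℂ) :
    ∑ i, φ (e i) * A i i = ∑ i, φ (e i) * lam i := by
  have h5 : P * Matrix.diagonal (fun i => φ (e i)) = Matrix.diagonal (fun i => φ (e i)) * P := by
    ext i j
    rw [Matrix.mul_diagonal, Matrix.diagonal_mul]
    by_cases h : P i j = 0
    · rw [h, zero_mul, mul_zero]
    · rw [h3 i j h, mul_comm]
  have h6 : A = P' * (Matrix.diagonal lam * P) := by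
    rw [← h4, ← Matrix.mul_assoc, h2, Matrix.one_mul]
  have h7 : Matrix.trace (Matrix.diagonal (fun i => φ (e i)) * A) =
      Matrix.trace (Matrix.diagonal (fun i => φ (e i)) * Matrix.diagonal lam) := by
    rw [h6, ← Matrix.mul_assoc, ← Matrix.mul_assoc, Matrix.trace_mul_comm, ← Matrix.mul_assoc,
      ← Matrix.mul_assoc, h5, Matrix.mul_assoc (Matrix.diagonal fun i => φ (e i)), h1,
      Matrix.mul_one]
  simpa [Matrix.trace, Matrix.diagonal_mul, Matrix.diag] using h7

end Pool.Agent.R837.NA
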