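import Pool.Agent.R837.NA.SymTest

/-!
# Test data for equivariant alternating and symmetric matrices
-/

set_option autoImplicit false
set_option linter.unusedSectionVars false

namespace Pool.Agent.R837.NA

open Finset MvPolynomial Pool.Agent.TH144.NV Pool.Agent.R837.FE

/-- the characters of the rows -/
noncomputable abbrev zc {n : ℕ} (ua : Fin n → ℂˣ) : Fin n → Multiplicative ℤ →* ℂˣ :=
  fun a => zpowersHom ℂˣ (ua a)

theorem zc_comm {n : ℕ} (ua : Fin n → ℂˣ) (a b : Fin n) :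
    zc ua a * zc ua b = zc ua b * zc ua a := by
  refine MonoidHom.ext fun z => ?_
  rw [MonoidHom.mul_apply, MonoidHom.mul_apply, mul_comm]

theorem exists_td_of {N : ℕ} {w : Fin N → ℕ} {Rg P P' : Matrix (Fin N) (Fin N) ℂ}
    {lam : Fin N → ℂˣ} (D : Dg w Rg P P' lam) {n : ℕ} (sym : Bool) (e f : Fin n → ℤ)
    (hsd : ∀ a b, e a + f b = e b + f a)
    (hpos : ∀ a b, (a ≠ b ∨ sym = true) → 0 < e a + f b)
    (A PA PA' : Matrix (Fin n) (Fin n) ℂ) (ua : Fin n → ℂˣ) (h1 : PA * PA' = 1)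
    (h2 : PA' * PA = 1) (h3 : ∀ i j, PA i j ≠ 0 → e i = e j)
    (h4 : PA * A = Matrix.diagonal (fun i => (ua i : ℂ)) * PA) (h5 : ∀ i, ‖(ua i : ℂ)‖ = 1)
    (M : Matrix (Fin n) (Fin n) (MvPolynomial (Fin N) ℂ))
    (hMs : ∀ a b, M b a = sg _ sym * M a b)
    (hhom : ∀ a b (m : ℕ), (m : ℤ) = e a + f b → IsWeightedHomogeneous w (M a b) m)
    (hM : M.map (lin Rg) = A.map C * M * (A.transpose).map C)
    (r q cx cy sd : ℕ) (hsd0 : 0 < sd) (hsd1 : cy = 0 ∨ sd ≠ 1)
    (X0 : ℂˣ) (top2 : ℤ)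
    (hB : ∀ μ : ℂˣ, ∃ B, Adm sym (RSc e f (zc ua) (zc ua) (Multiplicative.ofAdd 1) μ) B ∧
      B.card ≤ r ∧
      (q * (Nat.card (K sym (RSc e f (zc ua) (zc ua) (Multiplicative.ofAdd 1) μ)) -
          (tch sym (RSc e f (zc ua) (zc ua) (Multiplicative.ofAdd 1) μ) B).card) ≤
        cx * Nat.card (K sym (RSc e f (zc ua) (zc ua) (Multiplicative.ofAdd 1) μ)) ∨
      (X0 = μ ^ sd ∧
        q * (Nat.card (K sym (RSc e f (zc ua) (zc ua) (Multiplicative.ofAdd 1) μ)) -
          (tch sym (RSc e f (zc ua) (zc ua) (Multiplicative.ofAdd 1) μ) B).card) ≤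
        cx * Nat.card (K sym (RSc e f (zc ua) (zc ua) (Multiplicative.ofAdd 1) μ)) + cy)))
    (htop : (q : ℤ) * top2 = 2 * (cx * ∑ x : PosS n sym, (e x.1.1 + f x.1.2) + cy * sd)) :
    Nonempty (TData w lam (fun p => (M.map (eval (P'.mulVec p))).rank ≤ r) q top2
      ((cx : ℂ) * trSym sym e f A)) := by
  classical
  have h3' : ∀ i j, PA i j ≠ 0 → f i = f j := fun i j h => by
    have := hsd i j
    have := h3 i j h
    omega
  have hpos' : ∀ x : PosS n sym, 0 < e x.1.1 + f x.1.2 := by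
    rintro ⟨⟨a, b⟩, h1⟩
    refine hpos a b ?_
    rcases h1 with h1 | h1
    · exact Or.inl (ne_of_lt h1)
    · exact Or.inr h1.1
  have hsemi : ∀ (z : Multiplicative ℤ) (a b : Fin n),
      Pool.Agent.TH144.NV.act (fun i => ((zpowersHom ℂˣ (lam i) z : ℂˣ) : ℂ))
        (newM P' PA PA M a b) =
      C (((zc ua a z * zc ua b z : ℂˣ)) : ℂ) * newM P' PA PA M a b := by
    intro z a b
    have h6 := semi_zpow (newM P' PA PA M a b) lam (ua a * ua b) (by
      rw [newM_semi D A A.transpose PA PA (fun i => (ua i : ℂ)) (fun i => (ua i : ℂ)) h4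
        (by rw [Matrix.transpose_transpose, h4]) M hM a b, Units.val_mul]) z
    rw [h6]
    congr 3
    rw [zpowersHom_apply, zc, zc, zpowersHom_apply, zpowersHom_apply, mul_zpow]
  have hz : ∀ a, zc ua a (Multiplicative.ofAdd 1) = ua a := by
    intro a
    rw [zc, zpowersHom_apply, toAdd_ofAdd, zpow_one]
  refine ⟨
    { L := PosS n sym ⊕ Unit
      ft := inferInstance
      a := Sum.elim (fun _ => cx) fun _ => cy
      d := Sum.elim (fun x => (e x.1.1 + f x.1.2).toNat) fun _ => sd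
      mu := Sum.elim (fun x => ua x.1.1 * ua x.1.2) fun _ => if ‖(X0 : ℂ)‖ = 1 then X0 else 1
      norm := ?_
      pos := ?_
      htop := ?_
      hF := ?_
      hib := ?_ }⟩
  · rintro (x | x)
    · simp only [Sum.elim_inl]
      rw [Units.val_mul, norm_mul, h5, h5, one_mul]
    · simp only [Sum.elim_inr]
      split_ifs with h
      · exact h
      · simp
  · rintro (x | x)
    · have := hpos' x
      simp only [Sum.elim_inl]; omega
    · exact hsd0
  · rw [Fintype.sum_sum_type, htop]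
    simp only [Sum.elim_inl, Sum.elim_inr, Finset.univ_unique, Finset.sum_singleton]
    rw [← Finset.mul_sum]
    congr 3
    refine Finset.sum_congr rfl fun x _ => ?_
    have := hpos' x
    omega
  · rw [Finset.sum_filter, Fintype.sum_sum_type]
    simp only [Sum.elim_inl, Sum.elim_inr, Finset.univ_unique, Finset.sum_singleton]
    have e1 : (if sd = 1 then (cy : ℂ) * (((if ‖(X0 : ℂ)‖ = 1 then X0 else 1) : ℂˣ) : ℂ)
        else 0) = 0 := by
      rcases hsd1 with h | h
      · rw [h]; simp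
      · rw [if_neg h]
    rw [e1, add_zero, trSym_eq sym e f hsd A PA PA' (fun i => (ua i : ℂ)) h1 h2 h3 h4,
      Finset.mul_sum]
    refine Finset.sum_congr rfl fun x _ => ?_
    have := hpos' x
    by_cases h7 : e x.1.1 + f x.1.2 = 1
    · rw [if_pos h7, if_pos (by omega), one_mul, Units.val_mul]
    · rw [if_neg h7, if_neg (by omega), zero_mul, mul_zero]
  · intro μ T hT
    have hT' : ∀ i, i ∈ T ↔ zpowersHom ℂˣ (lam i) (Multiplicative.ofAdd 1) = μ ^ w i := by
      intro i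
      rw [hT, zpowersHom_apply, toAdd_ofAdd, zpow_one]
    obtain ⟨ib, i1, i2, i3⟩ := exists_ib_of (k := ℂ) (G := Multiplicative ℤ) (w := w)
      (α := fun i => zpowersHom ℂˣ (lam i)) sym e f hsd hpos (newM P' PA PA M)
      (newM_sym P' PA sym M hMs) (fun hs a => newM_diag P' PA sym hs M hMs a)
      (newM_hom D.gr' e f PA PA h3 h3' M hhom) (zc ua) (zc ua)
      (zc_comm ua) hsemi r q cx cy sd X0 (Multiplicative.ofAdd 1) μ T hT' (hB μ)
    refine ⟨ib, ?_, ?_⟩
    · intro p _ hrk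
      exact (newM_rank PA PA' PA PA' h2 h2 M p).trans (i1 p hrk)
    · simp only [hz] at i2
      rw [Finset.sum_filter, Fintype.sum_sum_type]
      simp only [Sum.elim_inl, Sum.elim_inr, Finset.univ_unique, Finset.sum_singleton]
      have e2 : (∑ x : PosS n sym, if ua x.1.1 * ua x.1.2 = μ ^ (e x.1.1 + f x.1.2).toNat then cx
          else 0) = cx * ib.kc := by
        rw [← Finset.sum_filter, Finset.sum_const, smul_eq_mul, mul_comm, i2]
      rw [e2]
      rcases i3 with i3 | ⟨i3, i4⟩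
      · exact i3.trans (Nat.le_add_right _ _)
      · by_cases hμ : ‖(μ : ℂ)‖ = 1
        · have h8 : ‖(X0 : ℂ)‖ = 1 := by
            rw [i3, Units.val_pow_eq_pow_val, norm_pow, hμ, one_pow]
          rw [if_pos h8, if_pos i3]
          exact i4
        · have h9 : ib.kc = 0 := by
            rw [i2, Finset.card_eq_zero, Finset.filter_eq_empty_iff]
            intro x _ hx
            apply hμ
            have h10 := congrArg (fun u : ℂˣ => ‖(u : ℂ)‖) hx
            simp only [Units.val_mul, Units.val_pow_eq_pow_val, norm_mul, norm_pow, h5] at h10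
            rw [one_mul] at h10
            have := hpos' x
            exact (pow_eq_one_iff_of_nonneg (norm_nonneg _) (by omega)).mp h10.symm
          rw [h9, Nat.zero_sub, mul_zero]
          exact Nat.zero_le _

/-- ratio of the contributions of alternating and symmetric matrices -/
theorem exists_td_alt {n r : ℕ} (e f : Fin n → ℤ)
    (hsd : ∀ a b, e a + f b = e b + f a) (hpos : ∀ a b, a ≠ b → 0 < e a + f b)
    (hr : r < n) (hev : Even r) : ∃ q cx : ℕ, 0 < q ∧
    ∀ {N : ℕ} {w : Fin N → ℕ} {Rg P P' : Matrix (Fin N) (Fin N) ℂ}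
      {lam : Fin N → ℂˣ} (_ : Dg w Rg P P' lam) (A : Matrix (Fin n) (Fin n) ℂ)
      (_ : ∀ i j, A i j ≠ 0 → e i = e j) {O : ℕ} (_ : 0 < O) (_ : A ^ O = 1)
      (M : Matrix (Fin n) (Fin n) (MvPolynomial (Fin N) ℂ))
      (_ : ∀ a b, M b a = - M a b)
      (_ : ∀ a b (m : ℕ), (m : ℤ) = e a + f b → IsWeightedHomogeneous w (M a b) m)
      (_ : M.map (lin Rg) = A.map C * M * (A.transpose).map C),
    Nonempty (TData w lam (fun p => (M.map (eval (P'.mulVec p))).rank ≤ r) q
      ((n - 1 - r) * ∑ a, (e a + f a)) ((cx : ℂ) * trSym false e f A)) := by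
  classical
  have hpos' : ∀ a b, (a ≠ b ∨ false = true) → 0 < e a + f b := by
    rintro a b (h | h)
    · exact hpos a b h
    · exact absurd h Bool.false_ne_true
  have hMs' : ∀ {N : ℕ} (M : Matrix (Fin n) (Fin n) (MvPolynomial (Fin N) ℂ)),
      (∀ a b, M b a = - M a b) → ∀ a b, M b a = sg _ false * M a b := by
    intro N M hM a b
    rw [hM a b]
    simp [sg]
  have hsum := sum_alt e f hsd
  have hR : ∀ (ua : Fin n → ℂˣ) (μ : ℂˣ) (a b : Fin n),
      RSc e f (zc ua) (zc ua) (Multiplicative.ofAdd 1) μ a b →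
      RSc e f (zc ua) (zc ua) (Multiplicative.ofAdd 1) μ b a :=
    fun ua μ a b h => (rs_swap e f hsd (zc ua) (zc ua) (zc_comm ua)
      (Multiplicative.ofAdd 1) μ a b).symm.trans h
  obtain ⟨s, hs⟩ := hev
  rcases Nat.eq_zero_or_pos s with h0 | h0
  · subst h0
    obtain rfl : r = 0 := by omega
    refine ⟨1, 1, one_pos, ?_⟩
    intro N w Rg P P' lam D A hA O hO hAO M hMs hhom hM
    obtain ⟨PA, PA', la, h1, h2, h3, h4, h5⟩ := exists_diag' e A hA hO hAO
    obtain ⟨ua, hua⟩ := unit_of_norm la h5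
    obtain rfl : (fun i => (ua i : ℂ)) = la := funext hua
    refine exists_td_of D false e f hsd hpos' A PA PA' ua h1 h2 h3 h4 h5 M (hMs' M hMs) hhom hM
      0 1 1 0 1 one_pos (Or.inl rfl) 1 _ ?_ ?_
    · intro μ
      refine ⟨∅, adm_empty, by simp, Or.inl ?_⟩
      rw [one_mul, one_mul]
      exact Nat.sub_le _ _
    · push_cast
      linear_combination (-1 : ℤ) * hsum
  rcases Nat.even_or_odd n with ⟨m, hm⟩ | ⟨h, hn⟩
  · -- even size
    obtain ⟨h, rfl⟩ : ∃ h, m = h + 1 := ⟨m - 1, by omega⟩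
    have hn : n = 2 * h + 2 := by omega
    have hsh : s ≤ h := by omega
    refine ⟨h, h - s, by omega, ?_⟩
    intro N w Rg P P' lam D A hA O hO hAO M hMs hhom hM
    obtain ⟨PA, PA', la, h1, h2, h3, h4, h5⟩ := exists_diag' e A hA hO hAO
    obtain ⟨ua, hua⟩ := unit_of_norm la h5
    obtain rfl : (fun i => (ua i : ℂ)) = la := funext hua
    obtain ⟨sd, Xs, hsd0, hsd2, hXs⟩ := pf_char (G := Multiplicative ℤ) e f hsd hpos (zc ua)
      (zc ua) (zc_comm ua) hn
    have hsd3 : sd ≠ 1 := by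
      rintro rfl
      have g1 : ∑ a, (e a + f a) = ∑ a : Fin n, (e a + f (Fin.rev a)) := by
        rw [Finset.sum_add_distrib, Finset.sum_add_distrib]
        congr 1
        exact (Equiv.sum_comp Fin.revPerm f).symm
      have g2 : ∑ _a : Fin n, (1 : ℤ) ≤ ∑ a : Fin n, (e a + f (Fin.rev a)) := by
        refine Finset.sum_le_sum fun a _ => ?_
        have := hpos a (Fin.rev a) (by
          intro h2
          have h3 := congrArg Fin.val h2
          rw [Fin.val_rev] at h3
          omega)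
        omega
      rw [← g1, ← hsd2] at g2
      simp only [Finset.sum_const, Finset.card_univ, Fintype.card_fin, nsmul_eq_mul,
        mul_one] at g2
      omega
    refine exists_td_of D false e f hsd hpos' A PA PA' ua h1 h2 h3 h4 h5 M (hMs' M hMs) hhom hM
      r h (h - s) s sd hsd0 (Or.inr hsd3) (Xs (Multiplicative.ofAdd 1)) _ ?_ ?_
    · intro μ
      obtain ⟨B, h1, h2, h3⟩ := comb_alt' (sym := false)
        (R := RSc e f (zc ua) (zc ua) (Multiplicative.ofAdd 1) μ) (hR ua μ) rfl s h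
        (by rw [Fintype.card_fin]; omega) hsh
      refine ⟨B, h1, by omega, ?_⟩
      rcases h3 with h3 | ⟨h3, _, h4⟩
      · exact Or.inl (count_of hsh (tch_le _ _ _) h3)
      · exact Or.inr ⟨hXs _ μ h3, count_of' hsh (tch_le _ _ _) h4⟩
    · have hn' : (n : ℤ) = 2 * h + 2 := by exact_mod_cast hn
      have hs' : (r : ℤ) = 2 * s := by rw [hs]; push_cast; ring
      rw [← hsd2] at hsum ⊢
      push_cast [Nat.cast_sub hsh] at hsum ⊢
      linear_combination (-(h - s : ℤ)) * hsum + 2 * sd * s * hn' - 2 * sd * h * hs'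
  · -- odd size
    have hsh : s ≤ h := by omega
    refine ⟨h, h - s, by omega, ?_⟩
    intro N w Rg P P' lam D A hA O hO hAO M hMs hhom hM
    obtain ⟨PA, PA', la, h1, h2, h3, h4, h5⟩ := exists_diag' e A hA hO hAO
    obtain ⟨ua, hua⟩ := unit_of_norm la h5
    obtain rfl : (fun i => (ua i : ℂ)) = la := funext hua
    refine exists_td_of D false e f hsd hpos' A PA PA' ua h1 h2 h3 h4 h5 M (hMs' M hMs) hhom hM
      r h (h - s) 0 1 one_pos (Or.inl rfl) 1 _ ?_ ?_
    · intro μ
      obtain ⟨B, h1, h2, h3⟩ := comb_alt' (sym := false)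
        (R := RSc e f (zc ua) (zc ua) (Multiplicative.ofAdd 1) μ) (hR ua μ) rfl s h
        (by rw [Fintype.card_fin]; omega) hsh
      refine ⟨B, h1, by omega, ?_⟩
      rcases h3 with h3 | ⟨_, h3, _⟩
      · exact Or.inl (count_of hsh (tch_le _ _ _) h3)
      · rw [Fintype.card_fin] at h3
        omega
    · have hn' : (n : ℤ) = 2 * h + 1 := by exact_mod_cast hn
      have hs' : (r : ℤ) = 2 * s := by rw [hs]; push_cast; ring
      push_cast [Nat.cast_sub hsh] at hsum ⊢
      linear_combination (-(h - s : ℤ)) * hsum + (∑ a, (e a + f a)) * s * hn' -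
        (∑ a, (e a + f a)) * h * hs'

theorem exists_td_sym {n r : ℕ} (e f : Fin n → ℤ)
    (hsd : ∀ a b, e a + f b = e b + f a) (hpos : ∀ a b, 0 < e a + f b)
    (hr : r < n) (hev : Even r) (hodd : Odd n) : ∃ q cx : ℕ, 0 < q ∧
    ∀ {N : ℕ} {w : Fin N → ℕ} {Rg P P' : Matrix (Fin N) (Fin N) ℂ}
      {lam : Fin N → ℂˣ} (_ : Dg w Rg P P' lam) (A : Matrix (Fin n) (Fin n) ℂ)
      (_ : ∀ i j, A i j ≠ 0 → e i = e j) {O : ℕ} (_ : 0 < O) (_ : A ^ O = 1)
      (M : Matrix (Fin n) (Fin n) (MvPolynomial (Fin N) ℂ))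
      (_ : ∀ a b, M b a = M a b)
      (_ : ∀ a b (m : ℕ), (m : ℤ) = e a + f b → IsWeightedHomogeneous w (M a b) m)
      (_ : M.map (lin Rg) = A.map C * M * (A.transpose).map C),
    Nonempty (TData w lam (fun p => (M.map (eval (P'.mulVec p))).rank ≤ r) q
      ((n + 1 - r) * ∑ a, (e a + f a)) ((cx : ℂ) * trSym true e f A)) := by
  classical
  have hpos' : ∀ a b, (a ≠ b ∨ true = true) → 0 < e a + f b := fun a b _ => hpos a b
  have hMs' : ∀ {N : ℕ} (M : Matrix (Fin n) (Fin n) (MvPolynomial (Fin N) ℂ)),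
      (∀ a b, M b a = M a b) → ∀ a b, M b a = sg _ true * M a b := by
    intro N M hM a b
    rw [hM a b]
    simp [sg]
  have hsum := sum_sym e f hsd
  have hR : ∀ (ua : Fin n → ℂˣ) (μ : ℂˣ) (a b : Fin n),
      RSc e f (zc ua) (zc ua) (Multiplicative.ofAdd 1) μ a b →
      RSc e f (zc ua) (zc ua) (Multiplicative.ofAdd 1) μ b a :=
    fun ua μ a b h => (rs_swap e f hsd (zc ua) (zc ua) (zc_comm ua)
      (Multiplicative.ofAdd 1) μ a b).symm.trans h
  obtain ⟨s, hs⟩ := hev
  rcases Nat.eq_zero_or_pos s with h0 | h0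
  · subst h0
    obtain rfl : r = 0 := by omega
    refine ⟨1, 1, one_pos, ?_⟩
    intro N w Rg P P' lam D A hA O hO hAO M hMs hhom hM
    obtain ⟨PA, PA', la, h1, h2, h3, h4, h5⟩ := exists_diag' e A hA hO hAO
    obtain ⟨ua, hua⟩ := unit_of_norm la h5
    obtain rfl : (fun i => (ua i : ℂ)) = la := funext hua
    refine exists_td_of D true e f hsd hpos' A PA PA' ua h1 h2 h3 h4 h5 M (hMs' M hMs) hhom hM
      0 1 1 0 1 one_pos (Or.inl rfl) 1 _ ?_ ?_
    · intro μ
      refine ⟨∅, adm_empty, by simp, Or.inl ?_⟩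
      rw [one_mul, one_mul]
      exact Nat.sub_le _ _
    · push_cast
      linear_combination (-1 : ℤ) * hsum
  obtain ⟨h, hn⟩ := hodd
  have hsh : s ≤ h := by omega
  have hσ1 : ∑ _a : Fin n, (1 : ℤ) ≤ ∑ a : Fin n, (e a + f a) :=
    Finset.sum_le_sum fun a _ => by have := hpos a a; omega
  simp only [Finset.sum_const, Finset.card_univ, Fintype.card_fin, nsmul_eq_mul,
    mul_one] at hσ1
  have hσ : 0 < ∑ a, (e a + f a) := by omega
  refine ⟨h, h - s, by omega, ?_⟩
  intro N w Rg P P' lam D A hA O hO hAO M hMs hhom hM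
  obtain ⟨PA, PA', la, h1, h2, h3, h4, h5⟩ := exists_diag' e A hA hO hAO
  obtain ⟨ua, hua⟩ := unit_of_norm la h5
  obtain rfl : (fun i => (ua i : ℂ)) = la := funext hua
  refine exists_td_of D true e f hsd hpos' A PA PA' ua h1 h2 h3 h4 h5 M (hMs' M hMs) hhom hM
    r h (h - s) s (∑ a, (e a + f a)).toNat (by omega) (Or.inr (by omega))
    ((∏ a, (zc ua a * zc ua a)) (Multiplicative.ofAdd 1)) _ ?_ ?_
  · intro μ
    obtain ⟨B, h1, h2, h3⟩ := comb_sym (sym := true)
      (R := RSc e f (zc ua) (zc ua) (Multiplicative.ofAdd 1) μ) (hR ua μ) rfl s h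
      (by rw [Fintype.card_fin]; omega) hsh
    refine ⟨B, h1, by omega, ?_⟩
    rcases h3 with h3 | ⟨⟨π, -, h5, h6, -⟩, h4⟩
    · exact Or.inl (count_of hsh (tch_le _ _ _) h3)
    · refine Or.inr ⟨?_, count_of' hsh (tch_le _ _ _) h4⟩
      rw [← rc_eq_one μ _ (∑ a, (e a + f a)) _ (by omega), MonoidHom.finsetProd_apply, rc_prod]
      have h7 : ∏ a, rc μ ((zc ua a * zc ua a) (Multiplicative.ofAdd 1)) (e a + f a) =
          (∏ a, rc μ (zc ua a (Multiplicative.ofAdd 1)) (e a)) *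
            ∏ a, rc μ (zc ua a (Multiplicative.ofAdd 1)) (f a) := by
        rw [← Finset.prod_mul_distrib]
        refine Finset.prod_congr rfl fun a _ => ?_
        rw [rc_mul_rc, MonoidHom.mul_apply]
      have hinv : Function.Involutive π := fun a => h5 a (mem_univ _)
      have h8 : ∏ a, rc μ (zc ua a (Multiplicative.ofAdd 1)) (f a) =
          ∏ a, rc μ (zc ua (π a) (Multiplicative.ofAdd 1)) (f (π a)) :=
        (Equiv.prod_comp hinv.toPerm
          (fun a => rc μ (zc ua a (Multiplicative.ofAdd 1)) (f a))).symm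
      rw [h7, h8, ← Finset.prod_mul_distrib]
      exact Finset.prod_eq_one fun a _ => h6 a (mem_univ _)
  · have hT : ((∑ a, (e a + f a)).toNat : ℤ) = ∑ a, (e a + f a) := by omega
    have hn' : (n : ℤ) = 2 * h + 1 := by exact_mod_cast hn
    have hs' : (r : ℤ) = 2 * s := by rw [hs]; push_cast; ring
    rw [hT]
    push_cast [Nat.cast_sub hsh] at hsum ⊢
    linear_combination (-(h - s : ℤ)) * hsum + (∑ a, (e a + f a)) * s * hn' -
      (∑ a, (e a + f a)) * h * hs'

end Pool.Agent.R837.NA
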