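import Pool.Agent.R837.NA.TData
import Pool.Agent.R837.NA.Avg
import Pool.Agent.R837.FE.SymBlock2

/-!
# Equivariant alternating and symmetric matrices
-/

set_option autoImplicit false
set_option linter.unusedSectionVars false

namespace Pool.Agent.R837.NA

open Finset MvPolynomial Pool.Agent.TH144.NV Pool.Agent.R837.FE

section sums
variable {n : ℕ}

theorem sum_lt (ψ : Fin n → Fin n → ℂ) (hψ : ∀ a b, ψ a b = ψ b a) :
    ∑ x : Fin n × Fin n, ψ x.1 x.2 =
      2 * ∑ x : Fin n × Fin n, (if x.1 < x.2 then ψ x.1 x.2 else 0) + ∑ a, ψ a a := by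
  have h2 : ∑ x : Fin n × Fin n, (if x.1 = x.2 then ψ x.1 x.2 else 0) = ∑ a, ψ a a := by
    rw [Fintype.sum_prod_type]
    refine Finset.sum_congr rfl fun a _ => ?_
    simp only
    rw [Finset.sum_ite_eq]
    simp
  have h3 : ∑ x : Fin n × Fin n, (if x.2 < x.1 then ψ x.1 x.2 else 0) =
      ∑ x : Fin n × Fin n, (if x.1 < x.2 then ψ x.1 x.2 else 0) := by
    rw [← (Equiv.prodComm (Fin n) (Fin n)).sum_comp]
    refine Finset.sum_congr rfl fun x _ => ?_
    simp only [Equiv.prodComm_apply, Prod.fst_swap, Prod.snd_swap]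
    split_ifs
    · exact hψ _ _
    · rfl
  have h4 : ∑ x : Fin n × Fin n, ψ x.1 x.2 =
      ∑ x : Fin n × Fin n, (if x.1 < x.2 then ψ x.1 x.2 else 0) +
      ∑ x : Fin n × Fin n, (if x.1 = x.2 then ψ x.1 x.2 else 0) +
      ∑ x : Fin n × Fin n, (if x.2 < x.1 then ψ x.1 x.2 else 0) := by
    rw [← Finset.sum_add_distrib, ← Finset.sum_add_distrib]
    refine Finset.sum_congr rfl fun x _ => ?_
    rcases lt_trichotomy x.1 x.2 with h | h | h
    · rw [if_pos h, if_neg h.ne, if_neg (lt_asymm h)]; ring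
    · rw [if_neg h.not_lt, if_pos h, if_neg h.symm.not_lt]; ring
    · rw [if_neg (lt_asymm h), if_neg h.ne', if_pos h]; ring
  rw [h2, h3] at h4
  rw [h4]
  ring

theorem posS_sum (sym : Bool) (ψ : Fin n → Fin n → ℂ) (hψ : ∀ a b, ψ a b = ψ b a) :
    2 * ∑ x : PosS n sym, ψ x.1.1 x.1.2 = ∑ a, ∑ b, ψ a b + sg ℂ sym * ∑ a, ψ a a := by
  have h0 := sum_lt ψ hψ
  rw [Fintype.sum_prod_type] at h0
  have h2 : ∑ x : Fin n × Fin n, (if x.1 = x.2 then ψ x.1 x.2 else 0) = ∑ a, ψ a a := by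
    rw [Fintype.sum_prod_type]
    refine Finset.sum_congr rfl fun a _ => ?_
    simp only
    rw [Finset.sum_ite_eq]
    simp
  cases sym with
  | false =>
    have h1 : ∑ x : PosS n false, ψ x.1.1 x.1.2 =
        ∑ x : Fin n × Fin n, (if x.1 < x.2 then ψ x.1 x.2 else 0) := by
      rw [← Finset.sum_filter]
      exact (Finset.sum_subtype _ (by simp) (fun x : Fin n × Fin n => ψ x.1 x.2)).symm
    rw [h1, h0]
    simp [sg]
  | true =>
    have h1 : ∑ x : PosS n true, ψ x.1.1 x.1.2 =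
        ∑ x : Fin n × Fin n, (if x.1 < x.2 ∨ x.1 = x.2 then ψ x.1 x.2 else 0) := by
      rw [← Finset.sum_filter]
      exact (Finset.sum_subtype _ (by simp) (fun x : Fin n × Fin n => ψ x.1 x.2)).symm
    have h3 : ∑ x : Fin n × Fin n, (if x.1 < x.2 ∨ x.1 = x.2 then ψ x.1 x.2 else 0) =
        ∑ x : Fin n × Fin n, (if x.1 < x.2 then ψ x.1 x.2 else 0) +
        ∑ x : Fin n × Fin n, (if x.1 = x.2 then ψ x.1 x.2 else 0) := by
      rw [← Finset.sum_add_distrib]
      refine Finset.sum_congr rfl fun x _ => ?_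
      by_cases h : x.1 < x.2
      · rw [if_pos (Or.inl h), if_pos h, if_neg h.ne]; ring
      · by_cases h' : x.1 = x.2
        · rw [if_pos (Or.inr h'), if_neg h, if_pos h']; ring
        · rw [if_neg (not_or.2 ⟨h, h'⟩), if_neg h, if_neg h']; ring
    rw [h1, h3, h2, h0]
    simp only [sg]
    simp only [if_true, one_mul]
    ring

open Classical in
/-- the trace on the part of degree one of the space of alternating or symmetric matrices -/
noncomputable def trSym (sym : Bool) (e f : Fin n → ℤ) (A : Matrix (Fin n) (Fin n) ℂ) : ℂ :=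
  (1 / 2) * (∑ i, ∑ j, (if e i + f j = 1 then 1 else 0) * (A i i * A j j) +
    sg ℂ sym * ∑ i, (if e i + f i = 1 then 1 else 0) * (A * A) i i)

theorem trSym_eq (sym : Bool) (e f : Fin n → ℤ) (hsd : ∀ a b, e a + f b = e b + f a)
    (A PA PA' : Matrix (Fin n) (Fin n) ℂ) (la : Fin n → ℂ)
    (h1 : PA * PA' = 1) (h2 : PA' * PA = 1) (h3 : ∀ i j, PA i j ≠ 0 → e i = e j)
    (h4 : PA * A = Matrix.diagonal la * PA) :
    trSym sym e f A = ∑ x : PosS n sym, (if e x.1.1 + f x.1.2 = 1 then 1 else 0) *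
      (la x.1.1 * la x.1.2) := by
  classical
  have h3' : ∀ i j, PA i j ≠ 0 → f i = f j := fun i j h => by
    have := hsd i j
    have := h3 i j h
    omega
  have s1 := sum_diag2 e f A PA PA' la h1 h2 h3 h4 A PA PA' la h1 h2 h3' h4
    (fun u v => if u + v = 1 then 1 else 0)
  have h5 : PA * (A * A) = Matrix.diagonal (fun i => la i * la i) * PA := by
    rw [← Matrix.mul_assoc, h4, Matrix.mul_assoc, h4, ← Matrix.mul_assoc,
      Matrix.diagonal_mul_diagonal]
  have s2 := sum_diag (fun i => e i + f i) (A * A) PA PA' (fun i => la i * la i) h1 h2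
    (fun i j h => by rw [h3 i j h, h3' i j h]) h5 (fun u => if u = 1 then 1 else 0)
  have s3 := posS_sum sym (fun a b => (if e a + f b = 1 then (1 : ℂ) else 0) * (la a * la b))
    (fun a b => by rw [hsd a b, mul_comm (la a)])
  unfold trSym
  have s1' : ∑ i, ∑ j, (if e i + f j = 1 then (1 : ℂ) else 0) * (A i i * A j j) =
      ∑ i, ∑ j, (if e i + f j = 1 then (1 : ℂ) else 0) * (la i * la j) := s1
  have s2' : ∑ i, (if e i + f i = 1 then (1 : ℂ) else 0) * (A * A) i i =
      ∑ i, (if e i + f i = 1 then (1 : ℂ) else 0) * (la i * la i) := s2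
  rw [s1', s2']
  linear_combination (-1 / 2 : ℂ) * s3

end sums

section single

variable {k : Type} [Field k] {G : Type} [Group G] {N : ℕ} {w : Fin N → ℕ} {α : Fin N → G →* kˣ}
  {n : ℕ}

open Classical in
theorem exists_ib_of (sym : Bool) (e f : Fin n → ℤ) (hsd : ∀ a b, e a + f b = e b + f a)
    (hpos : ∀ a b, (a ≠ b ∨ sym = true) → 0 < e a + f b)
    (M : Matrix (Fin n) (Fin n) (MvPolynomial (Fin N) k))
    (hM : ∀ a b, M b a = sg _ sym * M a b) (hMd : sym = false → ∀ a, M a a = 0)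
    (hhom : ∀ a b (m : ℕ), (m : ℤ) = e a + f b → IsWeightedHomogeneous w (M a b) m)
    (χ ψ : Fin n → G →* kˣ) (hsc : ∀ a b, χ a * ψ b = χ b * ψ a)
    (semi : ∀ g a b, Pool.Agent.TH144.NV.act (fun i => (α i g : k)) (M a b) =
      C ((χ a g * ψ b g : kˣ) : k) * M a b)
    (r q cx cy sd : ℕ) (X0 : kˣ) (g : G) (μ : kˣ) (T : Finset (Fin N))
    (hT : ∀ i, i ∈ T ↔ α i g = μ ^ w i)
    (hB : ∃ B, Adm sym (RSc e f χ ψ g μ) B ∧ B.card ≤ r ∧
      (q * (Nat.card (K sym (RSc e f χ ψ g μ)) - (tch sym (RSc e f χ ψ g μ) B).card) ≤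
        cx * Nat.card (K sym (RSc e f χ ψ g μ)) ∨
      (X0 = μ ^ sd ∧
        q * (Nat.card (K sym (RSc e f χ ψ g μ)) - (tch sym (RSc e f χ ψ g μ) B).card) ≤
        cx * Nat.card (K sym (RSc e f χ ψ g μ)) + cy))) :
    ∃ ib : IB k N w T,
      (∀ p, (ib.M.map (eval p)).rank ≤ ib.B.card → (M.map (eval p)).rank ≤ r) ∧
      ib.kc = (univ.filter fun x : PosS n sym =>
        χ x.1.1 g * ψ x.1.2 g = μ ^ (e x.1.1 + f x.1.2).toNat).card ∧
      (q * (ib.kc - ib.tc) ≤ cx * ib.kc ∨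
        (X0 = μ ^ sd ∧ q * (ib.kc - ib.tc) ≤ cx * ib.kc + cy)) := by
  obtain ⟨B, hB1, hB2, hB3⟩ := hB
  have hpos' : ∀ x : PosS n sym, 0 < e x.1.1 + f x.1.2 := by
    rintro ⟨⟨a, b⟩, h1⟩
    refine hpos a b ?_
    rcases h1 with h1 | h1
    · exact Or.inl (ne_of_lt h1)
    · exact Or.inr h1.1
  refine ⟨ibSym sym e f hsd hpos M hM hMd hhom χ ψ hsc semi g μ T hT B hB1, ?_, ?_, hB3⟩
  · intro p hrk
    exact hrk.trans hB2
  · show Nat.card (K sym (RSc e f χ ψ g μ)) = _
    rw [← Fintype.card_coe, ← Nat.card_eq_fintype_card]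
    have h2 : ∀ x : PosS n sym, RSc e f χ ψ g μ x.1.1 x.1.2 ↔
        x ∈ (univ.filter fun x : PosS n sym =>
          χ x.1.1 g * ψ x.1.2 g = μ ^ (e x.1.1 + f x.1.2).toNat) := by
      intro x
      have := hpos' x
      rw [Finset.mem_filter]
      simp only [RSc, RS]
      rw [rc_mul_rc, rc_eq_one μ _ _ ((e x.1.1 + f x.1.2).toNat) (by omega)]
      simp
    refine Nat.card_congr ((Equiv.subtypeSubtypeEquivSubtypeInter _ _).symm.trans
      (Equiv.subtypeEquivRight h2))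

end single

/-- the new matrix is alternating or symmetric -/
theorem newM_sym {N n : ℕ} (P' : Matrix (Fin N) (Fin N) ℂ) (PA : Matrix (Fin n) (Fin n) ℂ)
    (sym : Bool) (M : Matrix (Fin n) (Fin n) (MvPolynomial (Fin N) ℂ))
    (hMs : ∀ a b, M b a = sg _ sym * M a b) (a b : Fin n) :
    newM P' PA PA M b a = sg _ sym * newM P' PA PA M a b := by
  unfold newM
  rw [Matrix.map_apply, Matrix.map_apply]
  have h1 : (PA.map C * M * (PA.transpose).map C :
        Matrix (Fin n) (Fin n) (MvPolynomial (Fin N) ℂ)) b a =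
      sg _ sym * (PA.map C * M * (PA.transpose).map C :
        Matrix (Fin n) (Fin n) (MvPolynomial (Fin N) ℂ)) a b := by
    simp only [Matrix.mul_apply, Matrix.map_apply, Matrix.transpose_apply, Finset.sum_mul,
      Finset.mul_sum]
    rw [Finset.sum_comm]
    refine Finset.sum_congr rfl fun c _ => Finset.sum_congr rfl fun d _ => ?_
    rw [hMs d c]
    have h2 := sg_mul_sg (MvPolynomial (Fin N) ℂ) sym
    ring
  rw [h1, map_mul]
  congr 1
  exact map_sg sym (lin P' : MvPolynomial (Fin N) ℂ →+* MvPolynomial (Fin N) ℂ)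

theorem newM_diag {N n : ℕ} (P' : Matrix (Fin N) (Fin N) ℂ) (PA : Matrix (Fin n) (Fin n) ℂ)
    (sym : Bool) (hs : sym = false) (M : Matrix (Fin n) (Fin n) (MvPolynomial (Fin N) ℂ))
    (hMs : ∀ a b, M b a = sg _ sym * M a b) (a : Fin n) :
    newM P' PA PA M a a = 0 := by
  have h1 := newM_sym P' PA sym M hMs a a
  rw [hs] at h1
  simp only [sg, Bool.false_eq_true, if_false, neg_mul, one_mul] at h1
  have h2 : (2 : ℂ) • newM P' PA PA M a a = 0 := by
    rw [two_smul]
    nth_rewrite 1 [h1]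
    exact neg_add_cancel _
  rcases smul_eq_zero.1 h2 with h3 | h3
  · exact absurd h3 two_ne_zero
  · exact h3

end Pool.Agent.R837.NA
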