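import Pool.Agent.R837.NA.GenTest

/-!
# Test data of a block for one element of the group
-/

set_option autoImplicit false
set_option linter.unusedSectionVars false

namespace Pool.Agent.R837.NA

open Finset MvPolynomial Pool.Agent.TH144.NV Pool.Agent.R837.FE

open Classical in
/-- the contribution of a block for one element of the group -/
structure TData {N : ℕ} (w : Fin N → ℕ) (lam : Fin N → ℂˣ) (rk : (Fin N → ℂ) → Prop) (q : ℕ)
    (top2 : ℤ) (F : ℂ) where
  L : Type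
  ft : Fintype L
  a : L → ℕ
  d : L → ℕ
  mu : L → ℂˣ
  norm : ∀ x, ‖(mu x : ℂ)‖ = 1
  pos : ∀ x, 0 < d x
  htop : (q : ℤ) * top2 = 2 * ∑ x, (a x : ℤ) * d x
  hF : ∑ x ∈ univ.filter (fun x => d x = 1), (a x : ℂ) * (mu x : ℂ) = F
  hib : ∀ (μ : ℂˣ) (T : Finset (Fin N)), (∀ i, i ∈ T ↔ lam i = μ ^ w i) →
      ∃ ib : IB ℂ N w T, (∀ p : Fin N → ℂ, (∀ i, i ∉ T → p i = 0) →
        (ib.M.map (eval p)).rank ≤ ib.B.card → rk p) ∧
        q * (ib.kc - ib.tc) ≤ ∑ x ∈ univ.filter (fun x => mu x = μ ^ d x), a x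

attribute [instance] TData.ft

open Classical in
theorem per' {N : ℕ} (w : Fin N → ℕ) (hw : ∀ i, 0 < w i) (lam : Fin N → ℂˣ)
    (hlam : ∀ i, ‖(lam i : ℂ)‖ = 1) {Λ : Type} [Fintype Λ] (rk : Λ → (Fin N → ℂ) → Prop)
    (q : Λ → ℕ) (hq : ∀ l, 0 < q l) (top2 : Λ → ℤ) (F : Λ → ℂ)
    (td : ∀ l, TData w lam (rk l) (q l) (top2 l) (F l))
    (H0 : ∀ μ : ℂˣ, μ ≠ 1 → ∀ p : Fin N → ℂ, (∀ i, p i ≠ 0 → lam i = μ ^ w i) →
      (∀ l, rk l p) → p = 0) :
    2 * (∑ i, (w i : ℝ)) - ∑ l, (top2 l : ℝ) ≤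
      2 * (∑ i ∈ univ.filter (fun i => w i = 1), (lam i : ℂ)).re - 2 * ∑ l, (F l).re / q l := by
  set Q : ℕ := ∏ l, q l with hQ
  set Ql : Λ → ℕ := fun l => ∏ l' ∈ univ.erase l, q l' with hQl
  have hQQ : ∀ l, q l * Ql l = Q := fun l =>
    Finset.mul_prod_erase univ (fun l => q l) (mem_univ l)
  have hQpos : 0 < Q := Finset.prod_pos fun l _ => hq l
  have main := per w hw lam hlam rk Q (fun l => (td l).L) (fun l x => Ql l * (td l).a x)
    (fun l => (td l).d) (fun l => (td l).mu) (fun l => (td l).norm) (fun l => (td l).pos) (by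
      intro l μ T hT
      obtain ⟨ib, h1, h2⟩ := (td l).hib μ T hT
      refine ⟨ib, h1, ?_⟩
      rw [← Finset.mul_sum, ← hQQ l, mul_comm (q l) (Ql l), mul_assoc]
      exact Nat.mul_le_mul_left _ h2) H0
  have hQR : (0 : ℝ) < Q := by exact_mod_cast hQpos
  have e1 : ∀ l, ∑ x, ((Ql l * (td l).a x : ℕ) : ℝ) * ((td l).d x : ℝ) =
      (Q : ℝ) * ((top2 l : ℝ) / 2) := by
    intro l
    have h1 := (td l).htop
    have h2 : (q l : ℝ) * (top2 l : ℝ) = 2 * ∑ x, ((td l).a x : ℝ) * ((td l).d x : ℝ) := by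
      exact_mod_cast h1
    have h3 : ∑ x, ((Ql l * (td l).a x : ℕ) : ℝ) * ((td l).d x : ℝ) =
        (Ql l : ℝ) * ∑ x, ((td l).a x : ℝ) * ((td l).d x : ℝ) := by
      rw [Finset.mul_sum]
      exact Finset.sum_congr rfl fun x _ => by push_cast; ring
    have h4 : (Q : ℝ) = (q l : ℝ) * (Ql l : ℝ) := by exact_mod_cast (hQQ l).symm
    rw [h3, h4]
    linear_combination (-(Ql l : ℝ) / 2) * h2
  have e2 : ∀ l, ∑ x ∈ univ.filter (fun x => (td l).d x = 1),
      ((Ql l * (td l).a x : ℕ) : ℂ) * ((td l).mu x : ℂ) = (Ql l : ℂ) * F l := by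
    intro l
    refine Eq.trans ?_ (congrArg (fun z : ℂ => (Ql l : ℂ) * z) (td l).hF)
    show _ = (Ql l : ℂ) * ∑ x ∈ univ.filter (fun x => (td l).d x = 1),
      ((td l).a x : ℂ) * ((td l).mu x : ℂ)
    rw [Finset.mul_sum]
    exact Finset.sum_congr rfl fun x _ => by push_cast; ring
  rw [Finset.sum_congr rfl fun l _ => e1 l, Finset.sum_congr rfl fun l _ => e2 l] at main
  rw [Complex.sub_re, Complex.re_sum] at main
  have e3 : ((Q : ℂ) * ∑ i ∈ univ.filter (fun i => w i = 1), (lam i : ℂ)).re =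
      (Q : ℝ) * (∑ i ∈ univ.filter (fun i => w i = 1), (lam i : ℂ)).re := by
    rw [show (Q : ℂ) = ((Q : ℝ) : ℂ) by push_cast; rfl, Complex.re_ofReal_mul]
  have e4 : ∀ l, ((Ql l : ℂ) * F l).re = (Q : ℝ) * ((F l).re / q l) := by
    intro l
    have h5 : (0 : ℝ) < q l := by exact_mod_cast hq l
    have h4 : (Q : ℝ) = (q l : ℝ) * (Ql l : ℝ) := by exact_mod_cast (hQQ l).symm
    rw [show (Ql l : ℂ) = ((Ql l : ℝ) : ℂ) by push_cast; rfl, Complex.re_ofReal_mul, h4]
    field_simp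
  rw [e3, Finset.sum_congr rfl fun l _ => e4 l, ← Finset.mul_sum, ← Finset.mul_sum, ← mul_sub,
    ← mul_sub] at main
  have h6 := le_of_mul_le_mul_left main hQR
  have h7 : ∑ l, (top2 l : ℝ) / 2 = (∑ l, (top2 l : ℝ)) / 2 := (Finset.sum_div _ _ _).symm
  rw [h7] at h6
  linarith

theorem unit_of_norm {n : ℕ} (la : Fin n → ℂ) (h : ∀ i, ‖la i‖ = 1) :
    ∃ u : Fin n → ℂˣ, ∀ i, (u i : ℂ) = la i := by
  have h0 : ∀ i, la i ≠ 0 := fun i h' => by
    have := h i
    rw [h', norm_zero] at this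
    exact zero_ne_one this
  exact ⟨fun i => Units.mk0 (la i) (h0 i), fun i => rfl⟩

open Classical in
/-- the trace of an element on the part of degree one of the space of matrices -/
noncomputable def trGen {n : ℕ} (e f : Fin n → ℤ) (A B : Matrix (Fin n) (Fin n) ℂ) : ℂ :=
  ∑ i, ∑ j, (if e i + f j = 1 then 1 else 0) * (A i i * B j j)

theorem exists_td_gen {N : ℕ} {w : Fin N → ℕ} {Rg P P' : Matrix (Fin N) (Fin N) ℂ}
    {lam : Fin N → ℂˣ} (D : Dg w Rg P P' lam) {n r : ℕ} (hr : r < n) (e f : Fin n → ℤ)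
    (hpos : ∀ a b, 0 < e a + f b) (A B : Matrix (Fin n) (Fin n) ℂ)
    (hA : ∀ i j, A i j ≠ 0 → e i = e j) (hB : ∀ i j, B i j ≠ 0 → f i = f j)
    {O : ℕ} (hO : 0 < O) (hAO : A ^ O = 1) (hBO : B ^ O = 1)
    (M : Matrix (Fin n) (Fin n) (MvPolynomial (Fin N) ℂ))
    (hhom : ∀ a b (m : ℕ), (m : ℤ) = e a + f b → IsWeightedHomogeneous w (M a b) m)
    (hM : M.map (lin Rg) = A.map C * M * B.map C) :
    Nonempty (TData w lam (fun p => (M.map (eval (P'.mulVec p))).rank ≤ r) n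
      (2 * (n - r) * (∑ a, (e a + f a))) (((n - r : ℕ) : ℂ) * trGen e f A B)) := by
  classical
  obtain ⟨PA, PA', la, h1, h2, h3, h4, h5⟩ := exists_diag' e A hA hO hAO
  obtain ⟨PB, PB', lb, k1, k2, k3, k4, k5⟩ := exists_diag' f B.transpose
    (fun i j h => (hB j i h).symm) hO (by rw [← Matrix.transpose_pow, hBO, Matrix.transpose_one])
  obtain ⟨ua, hua⟩ := unit_of_norm la h5
  obtain ⟨ub, hub⟩ := unit_of_norm lb k5
  have hsemi : ∀ (z : Multiplicative ℤ) (a b : Fin n),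
      Pool.Agent.TH144.NV.act (fun i => ((zpowersHom ℂˣ (lam i) z : ℂˣ) : ℂ))
        (newM P' PA PB M a b) =
      C (((zpowersHom ℂˣ (ua a) z * zpowersHom ℂˣ (ub b) z : ℂˣ)) : ℂ) *
        newM P' PA PB M a b := by
    intro z a b
    have h6 := semi_zpow (newM P' PA PB M a b) lam (ua a * ub b) (by
      rw [newM_semi D A B PA PB la lb h4 k4 M hM a b, Units.val_mul, hua, hub]) z
    rw [h6]
    congr 3
    rw [zpowersHom_apply, zpowersHom_apply, zpowersHom_apply, mul_zpow]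
  have hd : ∀ x : Fin n × Fin n, (((e x.1 + f x.2).toNat : ℕ) : ℤ) = e x.1 + f x.2 := fun x => by
    have := hpos x.1 x.2; omega
  refine ⟨
    { L := Fin n × Fin n
      ft := inferInstance
      a := fun _ => n - r
      d := fun x => (e x.1 + f x.2).toNat
      mu := fun x => ua x.1 * ub x.2
      norm := ?_
      pos := fun x => by have := hpos x.1 x.2; omega
      htop := ?_
      hF := ?_
      hib := ?_ }⟩
  · intro x
    rw [Units.val_mul, norm_mul, hua, hub, h5, k5, one_mul]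
  · have h2 : ∑ x : Fin n × Fin n, ((n - r : ℕ) : ℤ) * (((e x.1 + f x.2).toNat : ℕ) : ℤ) =
        ∑ x : Fin n × Fin n, ((n - r : ℕ) : ℤ) * (e x.1 + f x.2) :=
      Finset.sum_congr rfl fun x _ => by rw [hd x]
    rw [h2, Fintype.sum_prod_type]
    push_cast [Nat.cast_sub hr.le]
    simp only [mul_add, Finset.sum_add_distrib, Finset.sum_const, Finset.card_univ,
      Fintype.card_fin, nsmul_eq_mul, ← Finset.mul_sum]
    ring
  · have s := sum_diag2 e f A PA PA' la h1 h2 h3 h4 B.transpose PB PB' lb k1 k2 k3 k4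
      (fun u v => if u + v = 1 then 1 else 0)
    unfold trGen
    have s' : ∑ i, ∑ j, (if e i + f j = 1 then (1 : ℂ) else 0) * (A i i * B j j) =
        ∑ i, ∑ j, (if e i + f j = 1 then (1 : ℂ) else 0) * (la i * lb j) := s
    rw [s', ← Finset.mul_sum]
    congr 1
    rw [Finset.sum_filter, Fintype.sum_prod_type]
    refine Finset.sum_congr rfl fun i _ => Finset.sum_congr rfl fun j _ => ?_
    have h6 := hd (i, j)
    simp only at h6 ⊢
    by_cases h7 : e i + f j = 1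
    · rw [if_pos h7, if_pos (by omega), one_mul, Units.val_mul, hua, hub]
    · rw [if_neg h7, if_neg (by omega), zero_mul]
  · intro μ T hT
    have hT' : ∀ i, i ∈ T ↔ zpowersHom ℂˣ (lam i) (Multiplicative.ofAdd 1) = μ ^ w i := by
      intro i
      rw [hT, zpowersHom_apply, toAdd_ofAdd, zpow_one]
    obtain ⟨ib, i1, i2⟩ := exists_ib_gen (k := ℂ) (G := Multiplicative ℤ) (w := w)
      (α := fun i => zpowersHom ℂˣ (lam i)) e f hpos (newM P' PA PB M)
      (newM_hom D.gr' e f PA PB h3 k3 M hhom) (fun a => zpowersHom ℂˣ (ua a))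
      (fun b => zpowersHom ℂˣ (ub b)) hsemi hr (Multiplicative.ofAdd 1) μ T hT'
    refine ⟨ib, ?_, ?_⟩
    · intro p _ hrk
      exact (newM_rank PA PA' PB PB' h2 k2 M p).trans (i1 p hrk)
    · refine i2.trans (le_of_eq ?_)
      rw [Finset.sum_const, smul_eq_mul, mul_comm]
      congr 2
      ext x
      rw [Finset.mem_filter, Finset.mem_filter, zpowersHom_apply, zpowersHom_apply, toAdd_ofAdd,
        zpow_one, zpow_one]

end Pool.Agent.R837.NA
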