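import Pool.Agent.R837.NA.TData
import Pool.Agent.R837.NA.Avg

/-!
# Test data for a vector of equations
-/

set_option autoImplicit false
set_option linter.unusedSectionVars false

namespace Pool.Agent.R837.NA

open Finset MvPolynomial Pool.Agent.TH144.NV Pool.Agent.R837.FE

/-- the relation of a diagonal matrix -/
def RV {c : ℕ} (S : Fin c → Prop) (a b : Fin c) : Prop := a = b ∧ S a

open Classical in
theorem card_KV {c : ℕ} (S : Fin c → Prop) :
    Nat.card (K true (RV S)) ≤ (univ.filter S).card := by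
  have h1 : Nat.card {x // x ∈ univ.filter S} = (univ.filter S).card := by
    rw [Nat.card_eq_fintype_card, Fintype.card_coe]
  rw [← h1]
  refine Nat.card_le_card_of_injective
    (fun x : K true (RV S) => (⟨x.1.1, by
      rw [Finset.mem_filter]
      exact ⟨mem_univ _, x.2.2.2⟩⟩ : {x // x ∈ univ.filter S})) ?_
  intro x y h
  have h2 : x.1.1 = y.1.1 := congrArg Subtype.val h
  apply Subtype.ext
  apply Prod.ext h2
  rw [← x.2.2.1, ← y.2.2.1, h2]

/-- the diagonal block -/
noncomputable def ibVec {N c : ℕ} {w : Fin N → ℕ} (lam : Fin N → ℂˣ) (d : Fin c → ℕ)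
    (hd : ∀ i, 0 < d i) (y : Fin c → MvPolynomial (Fin N) ℂ)
    (hy : ∀ i, IsWeightedHomogeneous w (y i) (d i)) (ua : Fin c → ℂˣ)
    (semi : ∀ i, Pool.Agent.TH144.NV.act (fun i => (lam i : ℂ)) (y i) = C (ua i : ℂ) * y i)
    (μ : ℂˣ) (T : Finset (Fin N)) (hT : ∀ i, i ∈ T ↔ lam i = μ ^ w i) : IB ℂ N w T where
  V := Fin c
  ft := inferInstance
  lo := inferInstance
  sym := true
  R := RV fun a => ua a = μ ^ d a
  hR := by
    rintro a b ⟨rfl, h⟩
    exact ⟨rfl, h⟩
  hR3 := by
    rintro a b c d ⟨rfl, h1⟩ ⟨rfl, h2⟩ ⟨rfl, h3⟩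
    exact ⟨rfl, h1⟩
  M := Matrix.diagonal y
  hM := by
    intro a b
    by_cases h : a = b
    · subst h
      simp [sg]
    · rw [Matrix.diagonal_apply_ne _ h, Matrix.diagonal_apply_ne _ (Ne.symm h), mul_zero]
  hMd := by simp
  e := fun a => d a
  f := fun _ => 0
  hef := by
    rintro a b ⟨rfl, _⟩
    rfl
  dg := fun x => d x.1.1
  hdg0 := fun x => hd _
  hdg := fun x => by simp
  hhom := by
    rintro ⟨⟨a, b⟩, h1, h2, h3⟩
    obtain rfl : a = b := h2
    rw [Matrix.diagonal_apply_eq]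
    exact hy a
  hvan := by
    intro a b hab p hp
    by_cases h : a = b
    · subst h
      rw [Matrix.diagonal_apply_eq]
      refine Pool.Agent.Y374.PF.eval_eq_zero_of_ne (hy a) (fun i => (lam i : ℂ)) (ua a : ℂ)
        (semi a) (μ : ℂ) ?_ ?_
      · intro i
        by_cases hi : i ∈ T
        · rw [(hT i).1 hi, Units.val_pow_eq_pow_val]
        · rw [hp i hi, mul_zero, mul_zero]
      · intro h3
        apply hab
        refine ⟨rfl, ?_⟩
        ext
        rw [h3, Units.val_pow_eq_pow_val]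
    · rw [Matrix.diagonal_apply_ne _ h, map_zero]
  B := ∅
  hB := adm_empty

open Classical in
theorem exists_td_vec {N : ℕ} {w : Fin N → ℕ} {Rg P P' : Matrix (Fin N) (Fin N) ℂ}
    {lam : Fin N → ℂˣ} (D : Dg w Rg P P' lam) {c : ℕ} (d : Fin c → ℕ) (hd : ∀ i, 0 < d i)
    (A : Matrix (Fin c) (Fin c) ℂ) (hA : ∀ i j, A i j ≠ 0 → d i = d j)
    {O : ℕ} (hO : 0 < O) (hAO : A ^ O = 1) (y : Fin c → MvPolynomial (Fin N) ℂ)
    (hy : ∀ i, IsWeightedHomogeneous w (y i) (d i))
    (hyA : ∀ i, lin Rg (y i) = ∑ j, A i j • y j) :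
    Nonempty (TData w lam (fun p => ∀ i, eval (P'.mulVec p) (y i) = 0) 1 (2 * ∑ i, (d i : ℤ))
      (∑ i, (if d i = 1 then 1 else 0) * A i i)) := by
  obtain ⟨PA, PA', la, h1, h2, h3, h3', h4, h5⟩ := exists_diag d A hA hO hAO
  obtain ⟨ua, hua⟩ := unit_of_norm la h5
  set y' : Fin c → MvPolynomial (Fin N) ℂ := fun i => lin P' (∑ j, PA i j • y j) with hy'
  have hhom : ∀ i, IsWeightedHomogeneous w (y' i) (d i) := by
    intro i
    apply lin_hom D.gr'
    refine IsWeightedHomogeneous.sum _ _ _ fun j _ => ?_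
    by_cases h : PA i j = 0
    · rw [h, zero_smul]; exact isWeightedHomogeneous_zero _ _ _
    · rw [h3 i j h]
      exact (mem_weightedHomogeneousSubmodule ℂ w _ _).1 (Submodule.smul_mem _ _
        ((mem_weightedHomogeneousSubmodule ℂ w _ _).2 (hy j)))
  have hlin : ∀ i, ∑ j, PA i j • ∑ l, A j l • y l = la i • ∑ j, PA i j • y j := by
    intro i
    have e1 : ∑ j, PA i j • ∑ l, A j l • y l = ∑ l, (PA * A) i l • y l := by
      simp only [Finset.smul_sum, smul_smul]
      rw [Finset.sum_comm]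
      refine Finset.sum_congr rfl fun l _ => ?_
      rw [← Finset.sum_smul, Matrix.mul_apply]
    rw [e1, h4, Finset.smul_sum]
    refine Finset.sum_congr rfl fun l _ => ?_
    rw [Matrix.diagonal_mul, smul_smul]
  have hsemi : ∀ i, Pool.Agent.TH144.NV.act (fun i => (lam i : ℂ)) (y' i) =
      C (ua i : ℂ) * y' i := by
    intro i
    rw [hy']
    simp only
    rw [D.act_lin, map_sum (lin Rg)]
    have e2 : ∑ j, lin Rg (PA i j • y j) = la i • ∑ j, PA i j • y j := by
      rw [← hlin i]
      refine Finset.sum_congr rfl fun j _ => ?_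
      rw [map_smul, hyA]
    rw [e2, map_smul, smul_eq_C_mul, hua]
  have hback : ∀ p : Fin N → ℂ, (∀ i, eval p (y' i) = 0) →
      ∀ i, eval (P'.mulVec p) (y i) = 0 := by
    intro p hp i
    have e1 : ∀ i, ∑ j, PA i j * eval (P'.mulVec p) (y j) = 0 := by
      intro i
      have := hp i
      rw [hy'] at this
      simp only at this
      rw [eval_lin, map_sum] at this
      rw [← this]
      exact Finset.sum_congr rfl fun j _ => (smul_eval _ _ _).symm
    have e2 : PA.mulVec (fun j => eval (P'.mulVec p) (y j)) = 0 := funext e1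
    have e3 : PA'.mulVec (PA.mulVec (fun j => eval (P'.mulVec p) (y j))) = 0 := by
      rw [e2, Matrix.mulVec_zero]
    rw [Matrix.mulVec_mulVec, h2, Matrix.one_mulVec] at e3
    exact congrFun e3 i
  refine ⟨
    { L := Fin c
      ft := inferInstance
      a := fun _ => 1
      d := d
      mu := ua
      norm := fun i => by rw [hua, h5]
      pos := hd
      htop := by push_cast; simp
      hF := ?_
      hib := ?_ }⟩
  · have s := sum_diag d A PA PA' la h1 h2 h3 h4 (fun u => if u = 1 then 1 else 0)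
    have s' : ∑ i, (if d i = 1 then (1 : ℂ) else 0) * A i i =
      ∑ i, (if d i = 1 then (1 : ℂ) else 0) * la i := s
    rw [s', Finset.sum_filter]
    refine Finset.sum_congr rfl fun i _ => ?_
    split_ifs
    · rw [hua, Nat.cast_one]
    · rw [zero_mul]
  · intro μ T hT
    refine ⟨ibVec lam d hd y' hhom ua hsemi μ T hT, ?_, ?_⟩
    · intro p _ hrk
      apply hback
      intro i
      have h6 : ((Matrix.diagonal y').map (eval p)).rank ≤ 0 := hrk
      have h8 := (rank_le_iff_minors _ 0).1 h6 (fun _ => i) (fun _ => i)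
      rw [Matrix.det_fin_one, Matrix.submatrix_apply, Matrix.map_apply,
        Matrix.diagonal_apply_eq] at h8
      exact h8
    · rw [Finset.sum_const, smul_eq_mul, mul_one, one_mul]
      refine (Nat.sub_le _ _).trans ?_
      have h9 : (ibVec lam d hd y' hhom ua hsemi μ T hT).kc =
        Nat.card (K true (RV fun a => ua a = μ ^ d a)) := rfl
      rw [h9]
      refine (card_KV _).trans (Finset.card_le_card fun x hx => ?_)
      simpa using hx

theorem avg_vec {G : Type} [Group G] [Fintype G] {c : ℕ} (d : Fin c → ℕ)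
    (A : G →* Matrix (Fin c) (Fin c) ℂ) (hA : ∀ g i j, A g i j ≠ 0 → d i = d j) :
    ∃ Z : Matrix (Fin c) (Fin c) ℂ,
      Z * Matrix.diagonal (fun i => if d i = 1 then 1 else 0) = Z ∧ (∀ g, Z * A g = Z) ∧
      ∑ g, (∑ i, (if d i = 1 then (1 : ℂ) else 0) * A g i i) =
        (Fintype.card G : ℂ) * (Z.rank : ℂ) := by
  obtain ⟨Z, h1, h2, h3⟩ := avg_idem A (Matrix.diagonal (fun i => if d i = 1 then 1 else 0)) (by
    rw [Matrix.diagonal_mul_diagonal]
    congr 1
    funext x
    split_ifs <;> simp) (by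
    intro g
    ext i j
    rw [Matrix.diagonal_mul, Matrix.mul_diagonal]
    by_cases h : A g i j = 0
    · rw [h, zero_mul, mul_zero]
    · rw [hA g i j h, mul_comm])
  refine ⟨Z, h1, h2, ?_⟩
  rw [← h3]
  refine Finset.sum_congr rfl fun g _ => ?_
  unfold Matrix.trace
  refine Finset.sum_congr rfl fun i _ => ?_
  rw [Matrix.diag_apply, Matrix.diagonal_mul]

end Pool.Agent.R837.NA
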