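import Pool.Agent.R837.NA.SymTD
import Pool.Agent.R837.NA.AvgSym
import Pool.Agent.R837.NA.Vec
import Pool.Agent.Y374.PF.Degree

/-!
# Section rings of quotients by arbitrary finite groups in equivariant rank formats

`R = ℂ[x₁, …, x_N]/I` with positive weights `w i`. An arbitrary finite group `G` acts on `ℂ^N` by
graded matrices `R g`. The zero set of `I` is given by equations `y i = 0`, on which `G` acts
linearly, and by rank conditions `rank M_l ≤ r_l` on finitely many homogeneous matrices `M_l` of size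
`n_l` such that `M_l (g x) = A_l(g) M_l(x) B_l(g)⁻¹` for graded representations `A_l`, `B_l` of `G`.
Each `M_l` is an arbitrary square matrix, or alternating and `r_l` is even, or symmetric and `n_l` is
odd and `r_l` is even; in the last two cases `B_l` is dual to `A_l`. Let `σ_l` be the degree of
`det M_l` and let `top` be the sum of the degrees of the `y i` and of the numbers `(n_l - r_l) σ_l`
for the arbitrary, `(n_l - 1 - r_l) σ_l / 2` for the alternating and `(n_l + 1 - r_l) σ_l / 2` for
the symmetric matrices. If `S = R^G` is a section ring and `I` is generated in degrees at least two,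
then `dim S₁ ≥ ∑ w i - top`. If `I` is generated by the `y i`, the minors of size `r_l + 1` and the
Pfaffians of size `r_l + 2` and has the expected codimension, then `R` is Gorenstein and
`a(R) = top - ∑ w i`.

Idea of the proof. For `g ∈ G` choose graded coordinates and bases of rows and columns in which `g`
is diagonal. For `t ≠ 1` the pair `(g, t)` has no fixed line on the cone of `R`, because `S` is a
section ring. So the number of the fixed coordinates is bounded by the number of the entries of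
the matrices of a trivial weight minus the dimension of the matrices of rank at most `r_l` with
such a support, and this number is bounded by a fixed proportion of the number of entries of a
trivial weight, with one more test character for Pfaffians and symmetric determinants. Summing
these inequalities over `t` with the coefficients `1 - Re t⁻¹` gives
`∑ w i - top ≤ Re (tr(g | R₁) - ∑_l c_l tr(g | W_l))`, where `W_l` is the representation of `G` on the
entries of degree one of `M_l`, and `c_l ≥ 0`. The mean of the right side over `G` is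
`dim S₁ - ∑_l c_l dim W_l^G`.
-/

set_option autoImplicit false

namespace Pool.Agent.R837.NA.Theorem

open MvPolynomial Finset Pool.Agent.R837.NA Pool.Agent.TH144.NV Pool.Agent.Y374.PF

/-- the kinds of matrices: arbitrary square, alternating, symmetric -/
inductive Kind : Type
  | gen : Kind
  | alt : Kind
  | sym : Kind

/-- A homogeneous matrix `M` of size `n` over the polynomial ring with weights `w`, and a bound `r`
for its rank. The group `G` acts on `ℂ^N` by the matrices `R g`, and
`M (g x) = A(g) M(x) B(g)⁻¹` for graded representations `A` and `B` of `G`. The entry `M a b` is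
homogeneous of degree `e a + f b`. The degrees of the entries are positive, except for the zeros
on the diagonal of an alternating matrix. Here `lin A q` is the polynomial `q (A x)`. -/
structure Block (G : Type) [Group G] {N : ℕ} (w : Fin N → ℕ)
    (R : G →* Matrix (Fin N) (Fin N) ℂ) where
  kind : Kind
  n : ℕ
  r : ℕ
  r_lt : r < n
  e : Fin n → ℤ
  f : Fin n → ℤ
  A : G →* Matrix (Fin n) (Fin n) ℂ
  B : G →* Matrix (Fin n) (Fin n) ℂ
  A_graded : ∀ g i j, A g i j ≠ 0 → e i = e j
  B_graded : ∀ g i j, B g i j ≠ 0 → f i = f j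
  M : Matrix (Fin n) (Fin n) (MvPolynomial (Fin N) ℂ)
  homogeneous : ∀ a b (m : ℕ), (m : ℤ) = e a + f b → IsWeightedHomogeneous w (M a b) m
  equivariant : ∀ g, M.map (lin (R g)) = (A g).map C * M * (B g⁻¹).map C
  pos : ∀ a b, (kind = Kind.alt → a ≠ b) → 0 < e a + f b
  degrees_symm : kind ≠ Kind.gen → ∀ a b, e a + f b = e b + f a
  dual : kind ≠ Kind.gen → ∀ g, B g⁻¹ = (A g).transpose
  rank_even : kind ≠ Kind.gen → Even r
  alternating : kind = Kind.alt → (∀ a, M a a = 0) ∧ ∀ a b, M b a = - M a b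
  symmetric : kind = Kind.sym → ∀ a b, M b a = M a b
  size_odd : kind = Kind.sym → Odd n

variable {G : Type} [Group G] {N : ℕ}

/-- twice the contribution of the block to `a(R) + ∑ w i`; here `∑ a, (e a + f a)` is the degree of
the determinant -/
def Block.top2 {w : Fin N → ℕ} {R : G →* Matrix (Fin N) (Fin N) ℂ} (b : Block G w R) : ℤ :=
  match b.kind with
  | Kind.gen => 2 * (b.n - b.r) * ∑ a, (b.e a + b.f a)
  | Kind.alt => (b.n - 1 - b.r) * ∑ a, (b.e a + b.f a)
  | Kind.sym => (b.n + 1 - b.r) * ∑ a, (b.e a + b.f a)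

/-- the rank condition at a point -/
def Block.Rank {w : Fin N → ℕ} {R : G →* Matrix (Fin N) (Fin N) ℂ} (b : Block G w R)
    (p : Fin N → ℂ) : Prop :=
  (b.M.map (eval p)).rank ≤ b.r

/-- A polynomial ring with positive weights `w`, a linear action of `G` by graded matrices `R g`,
matrices with rank conditions, equations `y i` of the degrees `d i > 0` with
`y (g x) = A(g) y(x)`, and homogeneous equations `F j` which vanish at all points at which the
rank conditions and the equations `y i = 0` hold (for instance the `y i`, the minors and the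
Pfaffians). -/
structure Datum (G : Type) [Group G] (N : ℕ) (Λ : Type) where
  w : Fin N → ℕ
  w_pos : ∀ i, 0 < w i
  R : G →* Matrix (Fin N) (Fin N) ℂ
  R_graded : ∀ g i j, R g i j ≠ 0 → w i = w j
  block : Λ → Block G w R
  c : ℕ
  y : Fin c → MvPolynomial (Fin N) ℂ
  d : Fin c → ℕ
  d_pos : ∀ i, 0 < d i
  y_homogeneous : ∀ i, IsWeightedHomogeneous w (y i) (d i)
  A : G →* Matrix (Fin c) (Fin c) ℂ
  A_graded : ∀ g i j, A g i j ≠ 0 → d i = d j
  y_equivariant : ∀ g i, lin (R g) (y i) = ∑ j, A g i j • y j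
  J : Type
  F : J → MvPolynomial (Fin N) ℂ
  δ : J → ℕ
  homogeneous : ∀ j, IsWeightedHomogeneous w (F j) (δ j)
  vanish : ∀ p : Fin N → ℂ, (∀ l, (block l).Rank p) → (∀ i, eval p (y i) = 0) →
    ∀ j, eval p (F j) = 0

variable {Λ : Type}

namespace Datum

variable (D : Datum G N Λ)

/-- the ideal of the equations -/
noncomputable def I : Ideal (MvPolynomial (Fin N) ℂ) := Ideal.span (Set.range D.F)

/-- the cone over `Proj R` -/
def Cone : Set (Fin N → ℂ) := {p | ∀ j, eval p (D.F j) = 0}

/-- the class of `a` in `R` is a `G`-invariant form of degree `m` -/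
def Inv (m : ℕ) (a : MvPolynomial (Fin N) ℂ) : Prop :=
  IsWeightedHomogeneous D.w a m ∧
    ∀ g, Ideal.Quotient.mk D.I (lin (D.R g) a) = Ideal.Quotient.mk D.I a

/-- the space `S_m = (R_m)^G` of the classes of these forms -/
noncomputable def sections (m : ℕ) : Submodule ℂ (MvPolynomial (Fin N) ℂ ⧸ D.I) where
  carrier := {q | ∃ a, D.Inv m a ∧ Ideal.Quotient.mk D.I a = q}
  add_mem' := by
    rintro _ _ ⟨a, ha, rfl⟩ ⟨b, hb, rfl⟩
    refine ⟨a + b, ⟨ha.1.add hb.1, fun g => ?_⟩, map_add _ _ _⟩
    rw [map_add, map_add, map_add, ha.2, hb.2]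
  zero_mem' := ⟨0, ⟨isWeightedHomogeneous_zero _ _ _, fun g => by rw [map_zero]⟩, map_zero _⟩
  smul_mem' := by
    rintro c _ ⟨a, ha, rfl⟩
    refine ⟨c • a, ⟨?_, fun g => ?_⟩, ?_⟩
    · exact (mem_weightedHomogeneousSubmodule ℂ D.w m _).1
        (Submodule.smul_mem _ c ((mem_weightedHomogeneousSubmodule ℂ D.w m _).2 ha.1))
    · rw [map_smul]
      have h1 := ha.2 g
      rw [Ideal.Quotient.eq] at h1 ⊢
      rw [← smul_sub, smul_eq_C_mul]
      exact Ideal.mul_mem_left _ _ h1
    · exact map_smul (Ideal.Quotient.mkₐ ℂ D.I) c a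

/-- At every point of `Proj R` invariant forms of some consecutive degrees `m`, `m + 1` do not
vanish. This holds if `S = R^G` is the section ring of an ample invertible sheaf. -/
def SectionRing : Prop :=
  ∀ p ∈ D.Cone, p ≠ 0 → ∃ (m : ℕ) (a b : MvPolynomial (Fin N) ℂ),
    D.Inv m a ∧ D.Inv (m + 1) b ∧ eval p a ≠ 0 ∧ eval p b ≠ 0

theorem eval_mem {p : Fin N → ℂ} (hp : p ∈ D.Cone) {a : MvPolynomial (Fin N) ℂ}
    (ha : a ∈ D.I) : eval p a = 0 := by
  have h1 : D.I ≤ RingHom.ker (eval p) := by
    rw [I, Ideal.span_le]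
    rintro _ ⟨j, rfl⟩
    exact (RingHom.mem_ker).2 (hp j)
  exact (RingHom.mem_ker).1 (h1 ha)

/-- eigenvalues of fixed lines are trivial -/
theorem eq_one (hS : D.SectionRing) {p : Fin N → ℂ} (hp : p ∈ D.Cone)
    (hp0 : p ≠ 0) (g : G) (μ : ℂˣ)
    (hfix : ∀ i, ((D.R g).mulVec p) i = (μ : ℂ) ^ D.w i * p i) : μ = 1 := by
  obtain ⟨m, a, b, ha, hb, ha0, hb0⟩ := hS p hp hp0
  have key : ∀ {m : ℕ} {a : MvPolynomial (Fin N) ℂ}, D.Inv m a → eval p a ≠ 0 →
      (μ : ℂ) ^ m = 1 := by
    intro m a ha ha0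
    have h2 := ha.2 g
    rw [Ideal.Quotient.eq] at h2
    have h3 := D.eval_mem hp h2
    rw [map_sub, sub_eq_zero, eval_lin] at h3
    rw [show (D.R g).mulVec p = fun i => (μ : ℂ) ^ D.w i * p i from funext hfix,
      Pool.Agent.H964R2.Core.eval_scale ha.1] at h3
    exact mul_right_cancel₀ ha0 (by rw [h3, one_mul])
  have h1 := key ha ha0
  have h2 := key hb hb0
  rw [pow_succ, h1, one_mul] at h2
  ext
  rw [h2, Units.val_one]

end Datum

open Classical in
theorem Block.main {w : Fin N → ℕ} {R : G →* Matrix (Fin N) (Fin N) ℂ} (b : Block G w R)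
    [Fintype G] : ∃ (q cx : ℕ) (t : G → ℂ), 0 < q ∧ 0 ≤ ∑ g, (t g).re ∧
    ∀ g {P P' : Matrix (Fin N) (Fin N) ℂ} {lam : Fin N → ℂˣ}, Dg w (R g) P P' lam →
      Nonempty (TData w lam (fun p => b.Rank (P'.mulVec p)) q b.top2 ((cx : ℂ) * t g)) := by
  have hO : 0 < Fintype.card G := Fintype.card_pos
  have hpow : ∀ {n : ℕ} (Q : G →* Matrix (Fin n) (Fin n) ℂ) (g : G),
      (Q g) ^ Fintype.card G = 1 := by
    intro n Q g
    rw [← map_pow, pow_card_eq_one, map_one]
  unfold Block.top2 Block.Rank
  cases hk : b.kind with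
  | gen =>
    refine ⟨b.n, b.n - b.r, fun g => trGen b.e b.f (b.A g) (b.B g⁻¹),
      lt_of_le_of_lt (Nat.zero_le _) b.r_lt, avg_trGen b.e b.f b.A b.B b.A_graded b.B_graded, ?_⟩
    intro g P P' lam D
    exact exists_td_gen D b.r_lt b.e b.f (fun x y => b.pos x y (by rw [hk]; simp)) (b.A g)
      (b.B g⁻¹) (b.A_graded g) (b.B_graded g⁻¹) hO (hpow b.A g) (hpow b.B g⁻¹) b.M b.homogeneous
      (b.equivariant g)
  | alt =>
    have h1 : b.kind ≠ Kind.gen := by rw [hk]; simp
    obtain ⟨q, cx, hq, h2⟩ := exists_td_alt b.e b.f (b.degrees_symm h1)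
      (fun x y hxy => b.pos x y fun _ => hxy) b.r_lt (b.rank_even h1)
    refine ⟨q, cx, fun g => trSym false b.e b.f (b.A g), hq,
      avg_trSym false b.e b.f (b.degrees_symm h1) b.A b.B b.A_graded (b.dual h1), ?_⟩
    intro g P P' lam D
    exact h2 D (b.A g) (b.A_graded g) hO (hpow b.A g) b.M (b.alternating hk).2 b.homogeneous
      (by rw [b.equivariant g, b.dual h1])
  | sym =>
    have h1 : b.kind ≠ Kind.gen := by rw [hk]; simp
    obtain ⟨q, cx, hq, h2⟩ := exists_td_sym b.e b.f (b.degrees_symm h1)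
      (fun x y => b.pos x y (by rw [hk]; simp)) b.r_lt (b.rank_even h1) (b.size_odd hk)
    refine ⟨q, cx, fun g => trSym true b.e b.f (b.A g), hq,
      avg_trSym true b.e b.f (b.degrees_symm h1) b.A b.B b.A_graded (b.dual h1), ?_⟩
    intro g P P' lam D
    exact h2 D (b.A g) (b.A_graded g) hO (hpow b.A g) b.M (b.symmetric hk) b.homogeneous
      (by rw [b.equivariant g, b.dual h1])

namespace Datum

variable (D : Datum G N Λ)

/-- an ideal generated by forms of degree at least two contains no forms of degree one -/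
theorem eq_zero_of_mem (hδ : ∀ j, 2 ≤ D.δ j) {u : MvPolynomial (Fin N) ℂ}
    (hu : IsWeightedHomogeneous D.w u 1) (hI : u ∈ D.I) : u = 0 := by
  have h2 : (Polynomial.X : Polynomial (MvPolynomial (Fin N) ℂ)) ^ 2 ∣ φ D.w u := by
    have h3 : Ideal.span (Set.range D.F) ≤
        Ideal.comap (φ D.w).toRingHom (Ideal.span {Polynomial.X ^ 2}) := by
      rw [Ideal.span_le]
      rintro _ ⟨j, rfl⟩
      rw [SetLike.mem_coe, Ideal.mem_comap, Ideal.mem_span_singleton]
      have h4 : (φ D.w).toRingHom (D.F j) = Polynomial.C (D.F j) * Polynomial.X ^ D.δ j :=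
        φ_hom (D.homogeneous j)
      rw [h4]
      exact Dvd.dvd.mul_left (pow_dvd_pow _ (hδ j)) _
    have h4 := h3 hI
    rw [Ideal.mem_comap, Ideal.mem_span_singleton] at h4
    exact h4
  rw [φ_hom hu, pow_one, Polynomial.X_pow_dvd_iff] at h2
  have h3 := h2 1 (by norm_num)
  simpa using h3

theorem finite_sections_one : FiniteDimensional ℂ (D.sections 1) := by
  let π : MvPolynomial (Fin N) ℂ →ₗ[ℂ] (MvPolynomial (Fin N) ℂ ⧸ D.I) :=
    (Ideal.Quotient.mkₐ ℂ D.I).toLinearMap
  have h1 : FiniteDimensional ℂ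
      (Submodule.span ℂ (Set.range (X : Fin N → MvPolynomial (Fin N) ℂ))) :=
    FiniteDimensional.span_of_finite ℂ (Set.finite_range _)
  have h3 : D.sections 1 ≤ Submodule.map π
      (Submodule.span ℂ (Set.range (X : Fin N → MvPolynomial (Fin N) ℂ))) := by
    rintro _ ⟨a, ha, rfl⟩
    exact ⟨a, mem_span_X D.w_pos ha.1, rfl⟩
  exact Submodule.finiteDimensional_of_le h3

open Classical in
/-- invariant linear forms are linearly independent in `R` -/
theorem rank_le_finrank (hδ : ∀ j, 2 ≤ D.δ j) (Z : Matrix (Fin N) (Fin N) ℂ)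
    (hZ1 : Z * Matrix.diagonal (fun i => if D.w i = 1 then 1 else 0) = Z)
    (hZ2 : ∀ g, Z * D.R g = Z) : Z.rank ≤ Module.finrank ℂ (D.sections 1) := by
  have hfin := D.finite_sections_one
  set V := LinearMap.range (Z.transpose.mulVecLin) with hV
  have hVrank : Module.finrank ℂ V = Z.rank := by
    rw [← Matrix.rank_transpose]
    rfl
  have hc1 : ∀ c ∈ V, ∀ i, D.w i ≠ 1 → c i = 0 := by
    rintro _ ⟨v, rfl⟩ i hi
    show ∑ j, Z j i * v j = 0
    refine Finset.sum_eq_zero fun j _ => ?_
    have h1 := congrFun (congrFun hZ1 j) i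
    rw [Matrix.mul_diagonal, if_neg hi, mul_zero] at h1
    rw [← h1, zero_mul]
  have hc2 : ∀ c ∈ V, ∀ g j, ∑ i, c i * D.R g i j = c j := by
    rintro _ ⟨v, rfl⟩ g j
    show ∑ i, (∑ l, Z l i * v l) * D.R g i j = ∑ l, Z l j * v l
    simp only [Finset.sum_mul]
    rw [Finset.sum_comm]
    refine Finset.sum_congr rfl fun l _ => ?_
    have h1 := congrFun (congrFun (hZ2 g) l) j
    rw [Matrix.mul_apply] at h1
    rw [← h1, Finset.sum_mul]
    exact Finset.sum_congr rfl fun i _ => by ring
  have hhom : ∀ c ∈ V, IsWeightedHomogeneous D.w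
      (∑ i, c i • (X i : MvPolynomial (Fin N) ℂ)) 1 := by
    intro c hc
    rw [← mem_weightedHomogeneousSubmodule]
    refine Submodule.sum_mem _ fun i _ => ?_
    by_cases hi : D.w i = 1
    · refine Submodule.smul_mem _ _ ?_
      rw [mem_weightedHomogeneousSubmodule]
      have := isWeightedHomogeneous_X ℂ D.w i
      rwa [hi] at this
    · rw [hc1 c hc i hi, zero_smul]
      exact Submodule.zero_mem _
  have hinv : ∀ c ∈ V, ∀ g, lin (D.R g) (∑ i, c i • (X i : MvPolynomial (Fin N) ℂ)) =
      ∑ i, c i • (X i : MvPolynomial (Fin N) ℂ) := by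
    intro c hc g
    rw [map_sum]
    simp only [map_smul, lin_X, Finset.smul_sum, smul_smul]
    rw [Finset.sum_comm]
    refine Finset.sum_congr rfl fun j _ => ?_
    rw [← Finset.sum_smul, hc2 c hc g j]
  let F : V →ₗ[ℂ] D.sections 1 :=
    { toFun := fun c => ⟨Ideal.Quotient.mk D.I (∑ i, c.1 i • (X i : MvPolynomial (Fin N) ℂ)),
        ⟨_, ⟨hhom c.1 c.2, fun g => by rw [hinv c.1 c.2 g]⟩, rfl⟩⟩
      map_add' := by
        intro c d
        apply Subtype.ext
        simp only [Submodule.coe_add, Pi.add_apply, add_smul, Finset.sum_add_distrib, map_add]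
      map_smul' := by
        intro r' c
        apply Subtype.ext
        simp only [Submodule.coe_smul, Pi.smul_apply, smul_eq_mul, mul_smul, ← Finset.smul_sum,
          RingHom.id_apply]
        exact map_smul (Ideal.Quotient.mkₐ ℂ D.I) _ _ }
  have hF : Function.Injective F := by
    rw [injective_iff_map_eq_zero]
    intro c hc
    have h1 : Ideal.Quotient.mk D.I (∑ i, c.1 i • (X i : MvPolynomial (Fin N) ℂ)) = 0 :=
      congrArg Subtype.val hc
    rw [Ideal.Quotient.eq_zero_iff_mem] at h1
    have h3 := D.eq_zero_of_mem hδ (hhom c.1 c.2) h1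
    have h4 := linearIndependent_X (σ := Fin N) ℂ
    apply Subtype.ext
    funext i
    exact (Fintype.linearIndependent_iff.1 h4) c.1 h3 i
  have h5 := LinearMap.finrank_le_finrank_of_injective hF
  rwa [hVrank] at h5

end Datum

theorem result [Finite G] [Fintype Λ] (D : Datum G N Λ)
    -- the ideal `I` is generated by forms of degree at least two
    (hδ : ∀ j, 2 ≤ D.δ j)
    -- `S = R^G` is a section ring
    (hS : D.SectionRing) :
    2 * (∑ i, (D.w i : ℤ) - ∑ i, (D.d i : ℤ)) - ∑ l, (D.block l).top2 ≤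
      2 * Module.finrank ℂ (D.sections 1) := by
  classical
  have _ := Fintype.ofFinite G
  have hO : 0 < Fintype.card G := Fintype.card_pos
  have hpow : ∀ {n : ℕ} (Q : G →* Matrix (Fin n) (Fin n) ℂ) (g : G),
      (Q g) ^ Fintype.card G = 1 := by
    intro n Q g
    rw [← map_pow, pow_card_eq_one, map_one]
  choose q cx t hq ht htd using fun l => (D.block l).main
  obtain ⟨ZA, -, -, hZA⟩ := avg_vec D.d D.A D.A_graded
  obtain ⟨Z, hZ1, hZ2, hZ3⟩ := avg_vec D.w D.R D.R_graded
  -- the inequality for every element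
  have hg : ∀ g, 2 * (∑ i, (D.w i : ℝ)) - (∑ l, ((D.block l).top2 : ℝ) +
      2 * ∑ i, (D.d i : ℝ)) ≤
      2 * (∑ i, (if D.w i = 1 then (1 : ℂ) else 0) * D.R g i i).re -
        2 * (∑ l, ((cx l : ℂ) * t l g).re / q l +
          (∑ i, (if D.d i = 1 then (1 : ℂ) else 0) * D.A g i i).re) := by
    intro g
    obtain ⟨P, P', lam, E⟩ := exists_dg D.w (D.R g) (D.R_graded g) hO (hpow D.R g)
    have h1 := per' D.w D.w_pos lam E.norm
      (fun o : Option Λ => o.elim (fun p => ∀ i, eval (P'.mulVec p) (D.y i) = 0)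
        fun l p => (D.block l).Rank (P'.mulVec p))
      (fun o => o.elim 1 q) (by rintro (_ | l); exacts [one_pos, hq l])
      (fun o => o.elim (2 * ∑ i, (D.d i : ℤ)) fun l => (D.block l).top2)
      (fun o => o.elim (∑ i, (if D.d i = 1 then (1 : ℂ) else 0) * D.A g i i)
        fun l => (cx l : ℂ) * t l g)
      (fun o => match o with
        | none => (exists_td_vec E D.d D.d_pos (D.A g) (D.A_graded g) hO (hpow D.A g) D.y
            D.y_homogeneous (D.y_equivariant g)).some
        | some l => (htd l g E).some) (by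
      intro μ hμ p hp hrk
      by_contra hp0
      have hp1 : P'.mulVec p ≠ 0 := fun h => hp0 (E.eq_zero p h)
      exact hμ (D.eq_one hS (D.vanish _ (fun l => hrk (some l)) (hrk none)) hp1 g μ
        (E.fixed μ p hp)))
    rw [Fintype.sum_option, Fintype.sum_option] at h1
    simp only [Option.elim_none, Option.elim_some] at h1
    have h2 := sum_diag D.w (D.R g) P P' (fun i => (lam i : ℂ)) E.h1 E.h2 E.gr E.eig
      (fun u => if u = 1 then 1 else 0)
    have h2' : ∑ i, (if D.w i = 1 then (1 : ℂ) else 0) * D.R g i i =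
      ∑ i, (if D.w i = 1 then (1 : ℂ) else 0) * (lam i : ℂ) := h2
    have h3 : ∑ i ∈ univ.filter (fun i => D.w i = 1), (lam i : ℂ) =
        ∑ i, (if D.w i = 1 then (1 : ℂ) else 0) * (lam i : ℂ) := by
      rw [Finset.sum_filter]
      refine Finset.sum_congr rfl fun i _ => ?_
      split_ifs <;> simp
    rw [h3, ← h2'] at h1
    push_cast at h1
    rw [div_one] at h1
    linarith
  -- the mean over the group
  have hsum := Finset.sum_le_sum fun g (_ : g ∈ (univ : Finset G)) => hg g
  rw [Finset.sum_const, Finset.card_univ, nsmul_eq_mul, Finset.sum_sub_distrib,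
    ← Finset.mul_sum, ← Finset.mul_sum, Finset.sum_add_distrib, ← Complex.re_sum,
    ← Complex.re_sum, hZ3, hZA, Finset.sum_comm] at hsum
  have hcast : ∀ m : ℕ, ((Fintype.card G : ℂ) * (m : ℂ)).re = (Fintype.card G : ℝ) * m := by
    intro m
    rw [show ((Fintype.card G : ℂ) * (m : ℂ)) = (((Fintype.card G : ℝ) * (m : ℝ) : ℝ) : ℂ) by
      push_cast; rfl, Complex.ofReal_re]
  rw [hcast, hcast] at hsum
  have hnn : 0 ≤ ∑ l, ∑ g, ((cx l : ℂ) * t l g).re / q l := by
    refine Finset.sum_nonneg fun l _ => ?_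
    have h4 : ∑ g, ((cx l : ℂ) * t l g).re / q l = (cx l : ℝ) / q l * ∑ g, (t l g).re := by
      rw [Finset.mul_sum]
      refine Finset.sum_congr rfl fun g _ => ?_
      rw [show (cx l : ℂ) = ((cx l : ℝ) : ℂ) by push_cast; rfl, Complex.re_ofReal_mul]
      ring
    rw [h4]
    exact mul_nonneg (by positivity) (ht l)
  have hGR : (0 : ℝ) < Fintype.card G := by exact_mod_cast hO
  have h6 : (0 : ℝ) ≤ (Fintype.card G : ℝ) * ZA.rank := by positivity
  have h7 : (Fintype.card G : ℝ) * (2 * (∑ i, (D.w i : ℝ)) - (∑ l, ((D.block l).top2 : ℝ) +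
      2 * ∑ i, (D.d i : ℝ))) ≤ (Fintype.card G : ℝ) * (2 * (Z.rank : ℝ)) := by
    linarith
  have h8 := le_of_mul_le_mul_left h7 hGR
  have h9 : 2 * (∑ i, (D.w i : ℤ)) - (∑ l, (D.block l).top2 + 2 * ∑ i, (D.d i : ℤ)) ≤
      2 * (Z.rank : ℤ) := by exact_mod_cast h8
  have h10 : (Z.rank : ℤ) ≤ Module.finrank ℂ (D.sections 1) := by
    exact_mod_cast D.rank_le_finrank hδ Z hZ1 hZ2
  linarith

end Pool.Agent.R837.NA.Theorem
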